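import Pool.Agent.Helper19.FLG.SHC
import Pool.Agent.Helper19.RFn.ONBb

/-!
# Project FLG, MYS part 5: the local Myers theorem for one metric

`MysStmt`: constants depend on `n` only. No curves, no upper curvature bound: static heat equation.
-/

set_option autoImplicit false

open Finset Set Pool.Agent.Helper47.RFn Pool.Agent.Helper73.RFn Pool.Agent.Helper19.RFn Pool.Agent.Helper19.RFn.ONB

namespace Pool.Agent.Helper19.FLG

/-- existence for the heat equation of a time independent frame (proved in `Helper36/FLG/StatHeat.lean`) -/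
def StH : Prop :=
  ∀ n : ℕ, 2 ≤ n → ∀ (τ : ℝ) (A θ : MF n), 0 < τ → Frm A θ → ∀ f : EE n → ℝ, Sm f →
    ∃ u : ℝ → EE n → ℝ, HeatOn (Set.Icc 0 τ) (fun _ => A) (fun _ => θ) u ∧ ∀ x, x ≠ 0 → u 0 x = f x

/-- local Myers theorem -/
def MysStmt : Prop :=
  ∀ n : ℕ, 4 ≤ n → ∃ C : ℝ, 1 ≤ C ∧ ∀ (A θ : MF n) (h : EE n → ℝ) (k : ℝ) (p : EE n), Frm A θ → 0 < k → Sm h →
    (∀ x, x ≠ 0 → ggf A h h x ≤ 1) → (∀ x, x ≠ 0 → RicF A θ 0 x) →
    (∀ x, x ≠ 0 → h x < C / Real.sqrt k → RicF A θ k x) → p ≠ 0 → h p ≤ 0 →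
    (∀ x, x ≠ 0 → h x < C / Real.sqrt k) ∧
      ∀ x y : EE n, ‖x‖ = 1 → ‖y‖ = 1 → gdist (gOf θ) x y ≤ C / Real.sqrt k

/-- static heat flow: the package used below -/
def PkgStmt (n : ℕ) : Prop :=
  ∀ (A θ : MF n), Frm A θ → (∀ x, x ≠ 0 → RicF A θ 0 x) → ∀ T : ℝ, 0 < T → ∀ f : EE n → ℝ, Sm f →
    (∀ x, x ≠ 0 → ggf A f f x ≤ 1) → ∃ u : ℝ → EE n → ℝ, (∀ x, x ≠ 0 → u 0 x = f x) ∧
      (∀ t, 0 ≤ t → t < T → Sm (u t)) ∧
      (∀ t, 0 < t → t < T → ∀ x, x ≠ 0 → ggf A (u t) (u t) x ≤ 1 ∧ t * Lapf A θ (u t) x ^ 2 ≤ ((n : ℝ) + 1) / 2) ∧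
      (∀ t, 0 ≤ t → t < T → ∀ x, x ≠ 0 → |u t x - f x| ≤ 2 * Real.sqrt (((n : ℝ) + 1) / 2) * Real.sqrt t) ∧
      ∀ (w : EE n → ℝ) (k b c R1 : ℝ), Sm w → 0 ≤ k → 0 ≤ b → (∀ x, x ≠ 0 → ggf A w w x ≤ 1) →
        (∀ x, x ≠ 0 → |Lapf A θ w x| ≤ c) → (∀ x, x ≠ 0 → RicF A θ k x ∨ R1 ≤ w x) →
        ∀ t, 0 < t → t < T → ∀ x, x ≠ 0 → ggf A (u t) (u t) x ≤ Real.exp (-(2 * k * t)) +
          Real.exp (b * (w x - R1) + (b ^ 2 + b * c) * t)

theorem pkg (hMOD : Goal_MOD) (hEM : Goal_EM) (hLNK : Goal_LNK) (hE0 : Goal_E0) (hYOM : Goal_YOM)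
    (hVIH : Goal_VIH) (hC1 : Goal_C1) (hC2 : Goal_C2) (hC8 : Goal_C8) (hC9 : Goal_C9)
    (hJ : JsmStmt) (hFHM : FhmStmt)
    (hMP1 : Goal_MP1) (hBOC : Goal_BOC) (hBIA : Goal_BIA) (hPRD : Goal_PRD) (hShf : ShfStmt) (hInt : IntStmt)
    (hSt : StH) (n : ℕ) (hn : 3 ≤ n) : PkgStmt n := by
  intro A θ hF hRic T hT f hf hf1
  obtain ⟨u, hu, hu0⟩ := hSt n (by omega) T A θ hT hF f hf
  have hsub : Set.Ico 0 T ⊆ Set.Icc 0 T := Set.Ico_subset_Icc_self
  have hu' : HeatOn (Set.Ico 0 T) (fun _ => A) (fun _ => θ) u :=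
    (hShf n (fun _ => A) (fun _ => θ) u (Set.Icc 0 T) (Set.Ico 0 T)).2.1 hsub hu
  have hg0 : ∀ x, x ≠ 0 → ggf A (u 0) (u 0) x ≤ 1 := fun x hx => by
    rw [ggf_congr hu0 hx]; exact hf1 x hx
  obtain ⟨h1, h2⟩ := shc_core hMOD hEM hLNK hE0 hYOM hVIH hC1 hC2 hC8 hC9 hJ hFHM hMP1 hBOC hBIA hPRD hn hT A θ hF
    hRic u hu' hg0
  refine ⟨u, hu0, fun t h0 h1 => hu'.fam.sm t ⟨h0, h1⟩, h1, ?_, h2⟩
  intro t h0 ht x hx
  have h3 := hInt (fun s => u s x) (fun s => Lapf A θ (u s) x) T (Real.sqrt (((n : ℝ) + 1) / 2)) (Real.sqrt_nonneg _)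
    (fun s hs => by
      have := hu'.der [] x hx s hs
      simpa only [Ew] using this)
    (fun s hs0 hs1 => by
      have h3 := (h1 s hs0 hs1 x hx).2
      have hs : 0 < Real.sqrt s := Real.sqrt_pos.mpr hs0
      rw [le_div_iff₀ hs]
      have h4 : |Lapf A θ (u s) x| * Real.sqrt s
          = Real.sqrt (s * Lapf A θ (u s) x ^ 2) := by
        rw [Real.sqrt_mul hs0.le, Real.sqrt_sq_eq_abs, mul_comm]
      rw [h4]
      exact Real.sqrt_le_sqrt h3) t h0 ht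
  have h5 : u 0 x = f x := hu0 x hx
  simpa only [h5] using h3

theorem mys (hPkg : ∀ n : ℕ, 3 ≤ n → PkgStmt n) (hSmo : SmoStmt) (hLip : LipStmt) (hDbd : DbdStmt)
    (hFhm : FhmStmt) (hTrc : TrcStmt) : MysStmt := by
  intro n hn
  set Bc : ℝ := ((n : ℝ) + 1) / 2 with hBc
  have hBc0 : 0 < Bc := by positivity
  set sB : ℝ := Real.sqrt Bc with hsB
  have hsB0 : 0 ≤ sB := Real.sqrt_nonneg _
  set q : ℝ := 2 * sB with hq
  have hq0 : 0 ≤ q := by positivity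
  set l : ℝ := Real.sqrt (2 * Real.exp (-2)) with hl
  have hl2 : l ^ 2 = 2 * Real.exp (-2) := Real.sq_sqrt (by positivity)
  have hl0 : 0 < l := Real.sqrt_pos.2 (by positivity)
  have hl1 : l < 1 := by
    have h1 : l ^ 2 < 1 := by
      rw [hl2, Real.exp_neg]
      have h2 : (2 : ℝ) + 1 ≤ Real.exp 2 := Real.add_one_le_exp 2
      rw [← div_eq_mul_inv, div_lt_one (Real.exp_pos 2)]
      linarith
    nlinarith
  have hl1' : 0 < 1 - l := by linarith
  set K0 : ℝ := 2 * q / (1 - l) + 1 with hK0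
  have hK01 : 1 ≤ K0 := by
    have : 0 ≤ 2 * q / (1 - l) := by positivity
    linarith
  set K1 : ℝ := 2 * K0 + 2 * q + 3 + sB with hK1
  refine ⟨K1, by linarith, ?_⟩
  intro A θ h k p hF hk hh hh1 hR0 hRk hp hhp
  have hsk : 0 < Real.sqrt k := Real.sqrt_pos.2 hk
  have hskk : Real.sqrt k * Real.sqrt k = k := Real.mul_self_sqrt hk.le
  have hT : 0 < 2 / k := by positivity
  have hk1 : 0 < 1 / k := by positivity
  have hk2 : 1 / k < 2 / k := by
    rw [div_lt_div_iff_of_pos_right hk]; norm_num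
  have hst : Real.sqrt (1 / k) = 1 / Real.sqrt k := by
    rw [Real.sqrt_div zero_le_one, Real.sqrt_one]
  have hPk := hPkg n (by omega) A θ hF hR0 (2 / k) hT
  obtain ⟨hGm, -, -, -, -, -, -, -, -, -, hgg, -, -, -, -⟩ := (hFhm n).1 A θ hF
  -- the shifted function
  set h' : EE n → ℝ := fun x => 1 * (h x - h p) with hh'
  have hh'Sm : Sm h' := sm_smul (sm_sub hh (sm_const _)) _
  have hgh' : ∀ x, x ≠ 0 → ggf A h' h' x ≤ 1 := by
    intro x hx
    have e1 : h' = fun y => (-1 : ℝ) * (h p - h y) := by funext y; simp only [hh']; ring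
    rw [e1, ggf_aff A hh (h p) (-1) x]
    have := hh1 x hx
    linarith
  -- the heat flow of `h'`
  obtain ⟨wu, -, hwS, hwg, hwd, -⟩ := hPk h' hh'Sm hgh'
  set w : EE n → ℝ := wu (1 / k) with hw
  have hwSm : Sm w := hwS _ hk1.le hk2
  have hw1 : ∀ x, x ≠ 0 → ggf A w w x ≤ 1 := fun x hx => (hwg _ hk1 hk2 x hx).1
  have hw2 : ∀ x, x ≠ 0 → |Lapf A θ w x| ≤ sB * Real.sqrt k := by
    intro x hx
    have e1 := (hwg _ hk1 hk2 x hx).2
    refine abs_le_of_sq_le_sq ?_ (by positivity)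
    rw [mul_pow, hsB, Real.sq_sqrt hBc0.le, Real.sq_sqrt hk.le]
    have e2 := mul_le_mul_of_nonneg_left e1 hk.le
    have e3 : k * (1 / k * Lapf A θ (wu (1 / k)) x ^ 2) = Lapf A θ w x ^ 2 := by
      rw [← mul_assoc, mul_one_div_cancel hk.ne', one_mul]
    rw [e3, ← hBc] at e2
    linarith
  have hw3 : ∀ x, x ≠ 0 → |w x - h' x| ≤ q / Real.sqrt k := by
    intro x hx
    have e1 := hwd _ hk1.le hk2 x hx
    rw [hst] at e1
    calc |w x - h' x| ≤ 2 * Real.sqrt (((n : ℝ) + 1) / 2) * (1 / Real.sqrt k) := e1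
      _ = q / Real.sqrt k := by rw [hq, hsB, hBc]; ring
  set R1 : ℝ := (K1 - q) / Real.sqrt k with hR1
  have hloc : ∀ x, x ≠ 0 → RicF A θ k x ∨ R1 ≤ w x := by
    intro x hx
    by_cases hc : h' x < K1 / Real.sqrt k
    · left
      refine hRk x hx (lt_of_le_of_lt ?_ hc)
      simp only [hh']
      linarith
    · right
      push Not at hc
      have e1 := (abs_le.1 (hw3 x hx)).1
      have e2 : R1 = K1 / Real.sqrt k - q / Real.sqrt k := by rw [hR1, sub_div]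
      rw [e2]
      linarith
  set R : ℝ := K0 / Real.sqrt k with hR
  have hRpos : 0 < R := by positivity
  -- smoothing package
  have SP : ∀ q' : EE n, ‖q'‖ = 1 → ∀ ε > 0, ∃ v : EE n → ℝ, Sm v ∧
      (∀ x, x ≠ 0 → h' x < 2 * R → ∑ i, ∑ j, (gOf θ x)⁻¹ i j * ed i v x * ed j v x ≤ l ^ 2) ∧
      ∀ x : EE n, ‖x‖ = 1 → |v x - gdist (gOf θ) q' x| ≤ ε + q / Real.sqrt k := by
    intro q' hq' ε hε
    obtain ⟨f, hf, hf1, hf2⟩ := hSmo n (gOf θ) q' ε (by omega) hGm hq' hε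
    obtain ⟨u, -, huS, hug, hud, huloc⟩ := hPk f hf (fun x hx => by rw [(hgg f f hf hf).2 x]; exact hf1 x hx)
    refine ⟨u (1 / k), huS _ hk1.le hk2, ?_, ?_⟩
    · intro x hx hxR
      have hv := huS _ hk1.le hk2
      rw [← (hgg _ _ hv hv).2 x]
      have e1 := huloc w k (Real.sqrt k) (sB * Real.sqrt k) R1 hwSm hk.le hsk.le hw1 hw2 hloc (1 / k) hk1 hk2 x hx
      have e2 : Real.exp (-(2 * k * (1 / k))) = Real.exp (-2) := by
        congr 1; field_simp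
      have e3 : Real.exp (Real.sqrt k * (w x - R1) + (Real.sqrt k ^ 2 + Real.sqrt k * (sB * Real.sqrt k)) * (1 / k)) ≤
          Real.exp (-2) := by
        refine Real.exp_le_exp.2 ?_
        have s1 : (Real.sqrt k ^ 2 + Real.sqrt k * (sB * Real.sqrt k)) * (1 / k) = 1 + sB := by
          have : Real.sqrt k ^ 2 + Real.sqrt k * (sB * Real.sqrt k) = k * (1 + sB) := by
            rw [pow_two, show Real.sqrt k * (sB * Real.sqrt k) = sB * (Real.sqrt k * Real.sqrt k) by ring, hskk]; ring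
          rw [this]; field_simp
        have s2 : w x ≤ (2 * K0 + q) / Real.sqrt k := by
          have t1 := (abs_le.1 (hw3 x hx)).2
          have t2 : (2 * K0 + q) / Real.sqrt k = 2 * R + q / Real.sqrt k := by rw [hR]; ring
          rw [t2]
          linarith
        have s3 : Real.sqrt k * (w x - R1) ≤ (2 * K0 + q) - (K1 - q) := by
          have t1 : Real.sqrt k * w x ≤ 2 * K0 + q := by
            have := mul_le_mul_of_nonneg_left s2 hsk.le
            rwa [mul_div_cancel₀ _ hsk.ne'] at this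
          have t2 : Real.sqrt k * R1 = K1 - q := by rw [hR1, mul_div_cancel₀ _ hsk.ne']
          rw [mul_sub, t2]
          linarith
        rw [s1, hK1] at *
        linarith
      rw [e2] at e1
      rw [hl2]
      linarith
    · intro x hx
      have e1 := hud _ hk1.le hk2 x (ne_of_unit hx)
      rw [hst] at e1
      have e1' : |u (1 / k) x - f x| ≤ q / Real.sqrt k := by
        calc |u (1 / k) x - f x| ≤ 2 * Real.sqrt (((n : ℝ) + 1) / 2) * (1 / Real.sqrt k) := e1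
          _ = q / Real.sqrt k := by rw [hq, hsB, hBc]; ring
      have e2 := hf2 x hx
      have e3 := abs_sub_le (u (1 / k) x) (f x) (gdist (gOf θ) q' x)
      linarith
  have hpu : ‖(‖p‖)⁻¹ • p‖ = 1 := norm_unit hp
  have hhp' : h' ((‖p‖)⁻¹ • p) = 0 := by
    rw [hom_unit hh'Sm.hom hp]
    simp only [hh']
    ring
  have hRk' : 2 * (q / Real.sqrt k) < (1 - l) * R := by
    have e1 : (1 - l) * R = (2 * q + (1 - l)) / Real.sqrt k := by
      rw [hR, hK0]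
      field_simp
    rw [e1, ← mul_div_assoc]
    exact div_lt_div_of_pos_right (by linarith) hsk
  obtain ⟨hA, hBd⟩ := geo hLip hDbd hTrc (by omega) (gOf θ) hGm h' hh'Sm
    (fun x hx => by rw [← (hgg h' h' hh'Sm hh'Sm).2 x]; exact hgh' x hx) l (q / Real.sqrt k) R hl0 hl1
    hRpos hRk' _ hpu hhp' SP
  have hK1R : R ≤ K1 / Real.sqrt k := div_le_div_of_nonneg_right (by linarith) hsk.le
  refine ⟨?_, ?_⟩
  · intro x hx
    have e1 := hA x hx
    simp only [hh'] at e1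
    linarith
  · intro x y hx hy
    have e1 := hBd x y hx hy
    have e2 : gdist (gOf θ) x y ≤ 2 * q / (1 - l) / Real.sqrt k := by
      have e3 : gdist (gOf θ) x y ≤ 2 * (q / Real.sqrt k) / (1 - l) := by
        rw [le_div_iff₀ hl1']
        linarith
      calc gdist (gOf θ) x y ≤ 2 * (q / Real.sqrt k) / (1 - l) := e3
        _ = 2 * q / (1 - l) / Real.sqrt k := by field_simp
    refine e2.trans (div_le_div_of_nonneg_right ?_ hsk.le)
    linarith

end Pool.Agent.Helper19.FLG
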