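import Pool.Agent.Helper47.FLG.Alg2

/-!
# FLG-OD2
-/

namespace Pool.Agent.Helper47.FLG

open Finset Pool.Agent.Helper47.RFn

namespace OD2aux

theorem dcomm {n : ℕ} (u v : Fin n → ℝ) : dot u v = dot v u := by
  unfold dot; exact Finset.sum_congr rfl fun i _ => mul_comm _ _

theorem dadd {n : ℕ} (u v w : Fin n → ℝ) : dot u (fun i => v i + w i) = dot u v + dot u w := by
  unfold dot; rw [← Finset.sum_add_distrib]; exact Finset.sum_congr rfl fun i _ => by ring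

theorem dadd' {n : ℕ} (u v w : Fin n → ℝ) : dot (fun i => v i + w i) u = dot v u + dot w u := by
  unfold dot; rw [← Finset.sum_add_distrib]; exact Finset.sum_congr rfl fun i _ => by ring

theorem dlc {n : ℕ} (e : Fin 4 → Fin n → ℝ) (a b c d : ℝ) (q : Fin n → ℝ) :
    dot q (lc e a b c d) = a * dot q (e 0) + b * dot q (e 1) + c * dot q (e 2) + d * dot q (e 3) := by
  unfold dot lc
  simp only [Finset.mul_sum, ← Finset.sum_add_distrib]
  exact Finset.sum_congr rfl fun i _ => by ring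

theorem pufr {n : ℕ} (e : Fin 4 → Fin n → ℝ) (a b c d s t : ℝ) (q : Fin n → ℝ) (h : perp4 e q) :
    perp4 (ufr e a b c d s t) q := by
  intro i
  have h0 := h 0
  have h1 := h 1
  have h2 := h 2
  have h3 := h 3
  fin_cases i <;> simp [ufr, dlc, h0, h1, h2, h3]

theorem lc0 {n : ℕ} (e : Fin 4 → Fin n → ℝ) : lc e 1 0 0 0 = e 0 ∧ lc e 0 1 0 0 = e 1 ∧ lc e 0 0 1 0 = e 2 ∧
    lc e 0 0 0 1 = e 3 := by
  refine ⟨?_, ?_, ?_, ?_⟩ <;> funext i <;> simp [lc]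

theorem fex {n : ℕ} (e : Fin 4 → Fin n → ℝ) : ufr e 0 0 1 0 (-1) 0 = ![e 2, e 3, e 0, e 1] := by
  obtain ⟨h0, h1, h2, h3⟩ := lc0 e
  unfold ufr
  norm_num [h0, h1, h2, h3]

/-- first and last vector of the frame -/
theorem gu {n : ℕ} (e : Fin 4 → Fin n → ℝ) (v : ℝ) : ufr e v 0 v 0 1 0 0 = lc e v 0 v 0 := by
  simp [ufr]

theorem linz {n : ℕ} (e : Fin 4 → Fin n → ℝ) (he : ON e) (g : (Fin n → ℝ) → ℝ)
    (hg : ∀ (a b : Fin n → ℝ) (s t : ℝ), g (fun i => s * a i + t * b i) = s * g a + t * g b)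
    (h0 : ∀ a, g (e a) = 0) (hw : ∀ w, perp4 e w → g w = 0) : ∀ x, g x = 0 := by
  intro x
  have hl : ∀ a b c d : ℝ, g (lc e a b c d) = 0 := by
    intro a b c d
    have h2 : lc e a b c d = fun i => 1 * (fun i => a * e 0 i + b * e 1 i) i + 1 * (fun i => c * e 2 i + d * e 3 i) i := by
      funext i
      simp only [lc]; ring
    rw [h2, hg, hg, hg, h0, h0, h0, h0]; ring
  have hpw : perp4 e (fun i => 1 * x i + (-1) * lc e (dot x (e 0)) (dot x (e 1)) (dot x (e 2)) (dot x (e 3)) i) := by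
    intro j
    have key : ∀ a b c d : ℝ, dot (fun i => 1 * x i + (-1) * lc e a b c d i) (e j) =
        dot x (e j) - (a * dot (e j) (e 0) + b * dot (e j) (e 1) + c * dot (e j) (e 2) + d * dot (e j) (e 3)) := by
      intro a b c d
      rw [← dlc]
      unfold dot
      rw [← Finset.sum_sub_distrib]
      exact Finset.sum_congr rfl fun i _ => by ring
    rw [key, he j 0, he j 1, he j 2, he j 3]
    fin_cases j <;> simp
  have h1 := hw _ hpw
  rw [hg, hl] at h1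
  linarith

/-- sum of squares -/
theorem dotsum {n : ℕ} (u w : Fin n → ℝ) : (∑ i, u i * w i) = dot u w := rfl

end OD2aux

open OD2aux

theorem g_OD2 (hOD1 : G_OD1) (hEQF : G_EQF) (hU2 : G_U2) (hNV1 : G_NV1) (hR4T : G_R4T) (hCL : Goal_CL) : G_OD2 := by
  intro n hn R e hN hq
  obtain ⟨tlin, -, tsym, -, -, -, -, -, -, -, texp, -, -⟩ := hR4T n
  have hR : IsCurv R := hN.fg.1
  have sy : ∀ a b c d, R4 R a b c d = R4 R c d a b := fun a b c d => (tsym R hR a b c d).2.2.1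
  obtain ⟨hA, -, hD0, hfr⟩ := hNV1 n hn R e hN
  have hQ : IsCurv (Q R) := (hCL n).1 R hR
  -- the exchanged frame
  have hNf : NV R ![e 2, e 3, e 0, e 1] := by
    rw [← fex]; exact hfr 0 0 1 0 (-1) 0 (by norm_num) (by norm_num)
  have hqf : qf (Q R) (cv ((![e 2, e 3, e 0, e 1] : Fin 4 → Fin n → ℝ) 0) ((![e 2, e 3, e 0, e 1] : Fin 4 → Fin n → ℝ) 1))
      (cv ((![e 2, e 3, e 0, e 1] : Fin 4 → Fin n → ℝ) 2) ((![e 2, e 3, e 0, e 1] : Fin 4 → Fin n → ℝ) 3)) = 0 := by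
    rw [← fex, (hU2 n e 0 0 1 0 (-1) 0 hN.on (by norm_num) (by norm_num)).2 (Q R) hQ]
    exact hq
  obtain ⟨hA', -, hD0', -⟩ := hNV1 n hn R _ hNf
  have hD := hD0 hq
  have hD' := hD0' hqf
  obtain ⟨-, -, -, -, -, -, hE⟩ := hEQF n R _ _ _ hA
  obtain ⟨-, -, -, -, -, -, hE'⟩ := hEQF n R _ _ _ hA'
  obtain ⟨-, -, -, -, -, -, A2, A3, A4, -, -, -⟩ := hE hD
  obtain ⟨-, -, -, -, -, -, B2, B3, B4, -, -, -⟩ := hE' hD'
  simp only [Matrix.cons_val_zero, Matrix.cons_val] at B2 B3 B4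
  obtain ⟨O1, O2, -, O4⟩ := hOD1 n hn R e hN hq
  obtain ⟨P1, P2, -, -⟩ := hOD1 n hn R _ hNf hqf
  simp only [Matrix.cons_val_zero, Matrix.cons_val_one, Matrix.cons_val] at P1 P2
  have pf : ∀ q, perp4 e q → perp4 ![e 2, e 3, e 0, e 1] q := fun q h => by
    rw [← fex]; exact pufr e _ _ _ _ _ _ q h
  have pf' : ∀ q, perp4 ![e 2, e 3, e 0, e 1] q → perp4 e q := fun q h i => by
    have h0 := h 0
    have h1 := h 1
    have h2 := h 2
    have h3 := h 3
    simp only [Matrix.cons_val_zero, Matrix.cons_val_one, Matrix.cons_val] at h0 h1 h2 h3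
    fin_cases i <;> simpa
  -- additivity
  have ad2 : ∀ a b x y c d, R4 R a b c d = R4 R a b c d ∧
      R4 R a (fun i => x i + y i) c d = R4 R a x c d + R4 R a y c d ∧
      R4 R a b c (fun i => x i + y i) = R4 R a b c x + R4 R a b c y := by
    intro a b x y c d
    have h := tlin R x y a c d 1 1
    have h' := tlin R x y a b c 1 1
    simp only [one_mul] at h h'
    exact ⟨rfl, h.2.1, h'.2.2.2⟩
  have c1 : ∀ p q, perp4 e p → perp4 e q → Eg R (e 0) 1 p → Eg R (e 2) 1 p →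
      R4 R (e 0) p (e 2) q = 0 ∧ R4 R (e 0) q (e 2) p = 0 := by
    intro p q hp hq' h0 h2
    obtain ⟨q1, q4, hq1, hq4, rfl, e1, e4⟩ := O1 q hq'
    have i1 := A3 p q1 h0 e1
    have i2 := A3 q1 p e1 h0
    have w := (O2 q4 hq4 e4).2.1
    have i3 := B3 p q4 h2 w
    have i4 := B3 q4 p w h2
    rw [sy] at i3 i4
    rw [(ad2 (e 0) p q1 q4 (e 2) p).2.2, (ad2 (e 0) p q1 q4 (e 2) p).2.1, i1, i2, i3, i4]
    simp
  have c3 : ∀ p q, perp4 e p → perp4 e q → Eg R (e 2) 4 p → Eg R (e 2) 4 q → R4 R (e 0) p (e 2) q = 0 := by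
    intro p q hp hq' h0 h2
    exact A3 p q (P2 p (pf p hp) h0).2.1 (P2 q (pf q hq') h2).2.1
  have c4 : ∀ p q, perp4 e p → perp4 e q → Eg R (e 0) 4 p → Eg R (e 2) 4 q →
      R4 R (e 0) p (e 2) q = 2 * R4 R (e 0) q (e 2) p := by
    intro p q hp hq' h0 h2
    exact A2 p q h0 (P2 q (pf q hq') h2).2.1
  -- components in V vanish
  have z4 : ∀ (p : Fin n → ℝ) a b c, perp4 e p → R4 R (e a) (e b) (e c) p = 0 := by
    intro p a b c hp
    rw [O4 p a b c]
    have : (fun i => ∑ j, dot p (e j) * e j i) = fun i => (0 : ℝ) * (0 : Fin n → ℝ) i + 0 * (0 : Fin n → ℝ) i := by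
      funext i; simp [hp _]
    rw [this, (tlin R 0 0 (e a) (e b) (e c) 0 0).2.2.2]; ring
  -- linearity in the second and fourth argument
  have l2 : ∀ (a c d x y : Fin n → ℝ) (s t : ℝ), R4 R a (fun i => s * x i + t * y i) c d =
      s * R4 R a x c d + t * R4 R a y c d := fun a c d x y s t => (tlin R x y a c d s t).2.1
  have l4 : ∀ (a b c x y : Fin n → ℝ) (s t : ℝ), R4 R a b c (fun i => s * x i + t * y i) =
      s * R4 R a b c x + t * R4 R a b c y := fun a b c x y s t => (tlin R x y a b c s t).2.2.2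
  have m4 : ∀ p, perp4 e p → Eg R (e 0) 4 p → ∀ x, R4 R (e 0) x (e 2) p - 1 / 2 * R4 R (e 0) p (e 2) x = 0 := by
    intro p hp ep
    refine linz e hN.on _ (fun a b s t => ?_) (fun a => ?_) (fun w hw => ?_)
    · rw [l2, l4]; ring
    · rw [z4 p 0 a 2 hp, sy (e 0) p, z4 p 2 a 0 hp]; ring
    · obtain ⟨q1, q4, hq1, hq4, rfl, e1, e4⟩ := O1 w hw
      rw [(ad2 (e 0) p q1 q4 (e 2) p).2.2, (ad2 (e 0) p q1 q4 (e 2) p).2.1, A4 q4 p e4 ep, A4 p q4 ep e4, A2 p q1 ep e1]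
      ring
  have m4' : ∀ q, perp4 e q → Eg R (e 2) 4 q → ∀ x, R4 R (e 0) q (e 2) x - 1 / 2 * R4 R (e 0) x (e 2) q = 0 := by
    intro p hp ep
    refine linz e hN.on _ (fun a b s t => ?_) (fun a => ?_) (fun w hw => ?_)
    · rw [l2, l4]; ring
    · rw [z4 p 0 a 2 hp, sy (e 0) p, z4 p 2 a 0 hp]; ring
    · obtain ⟨q1, q4, hq1, hq4, rfl, e1, e4⟩ := P1 w (pf w hw)
      have i1 := B2 p q1 ep e1
      have i2 := B4 p q4 ep e4
      have i3 := B4 q4 p e4 ep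
      rw [sy (e 2) p, sy (e 2) q1] at i1
      rw [sy (e 2)] at i2 i3
      rw [(ad2 (e 0) p q1 q4 (e 2) p).2.2, (ad2 (e 0) p q1 q4 (e 2) p).2.1, i1, i2, i3]
      ring
  -- the frame with first vector u
  have hv : (√(1 / 2 : ℝ)) ^ 2 = 1 / 2 := Real.sq_sqrt (by norm_num)
  set v : ℝ := √(1 / 2 : ℝ) with hvd
  have hv1 : v ^ 2 + 0 ^ 2 + v ^ 2 + 0 ^ 2 = 1 := by rw [hv]; norm_num
  have hNg := hfr v 0 v 0 1 0 hv1 (by norm_num)
  have hqg : qf (Q R) (cv (ufr e v 0 v 0 1 0 0) (ufr e v 0 v 0 1 0 1)) (cv (ufr e v 0 v 0 1 0 2) (ufr e v 0 v 0 1 0 3)) = 0 := by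
    rw [(hU2 n e v 0 v 0 1 0 hN.on hv1 (by norm_num)).2 (Q R) hQ]; exact hq
  obtain ⟨G1, -, -, -⟩ := hOD1 n hn R _ hNg hqg
  rw [gu] at G1
  set u := lc e v 0 v 0 with hud
  have hu : u = fun i => v * e 0 i + v * e 2 i := by funext i; simp [hud, lc]
  have exu : ∀ x y, R4 R u x u y = 1 / 2 * (R4 R (e 0) x (e 0) y + R4 R (e 2) x (e 2) y + R4 R (e 0) x (e 2) y
      + R4 R (e 0) y (e 2) x) := by
    intro x y
    rw [hu, (tlin R (e 0) (e 2) x _ y v v).1, (tlin R (e 0) (e 2) (e 0) x y v v).2.2.1,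
      (tlin R (e 0) (e 2) (e 2) x y v v).2.2.1, sy (e 0) y]
    linear_combination (R4 R (e 0) x (e 0) y + R4 R (e 2) x (e 2) y + R4 R (e 0) x (e 2) y
      + R4 R (e 2) x (e 0) y) * hv
  have key : ∀ p p', perp4 e p → perp4 e p' →
      (∑ i, R4 R u (sb i) u p * R4 R u (sb i) u p') = 5 * R4 R u p u p' - 4 * dot p p' := by
    intro p p' hp hp'
    obtain ⟨p1, p4, -, -, rfl, e1, e4⟩ := G1 p (pufr e _ _ _ _ _ _ p hp)
    obtain ⟨r1, r4, -, -, rfl, f1, f4⟩ := G1 p' (pufr e _ _ _ _ _ _ p' hp')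
    have dsb : ∀ (w : Fin n → ℝ) i, dot (sb i) w = w i := by
      intro w i; unfold dot sb; simp
    have orth : ∀ a b, Eg R u 1 a → Eg R u 4 b → dot a b = 0 := by
      intro a b ha hb
      have h1 := ha.2 b
      have h2 := hb.2 a
      rw [sy] at h1
      rw [dcomm b a] at h1
      linarith
    have hs : ∀ i, R4 R u (sb i) u (fun i => p1 i + p4 i) = p1 i + 4 * p4 i := by
      intro i
      rw [(ad2 u u p1 p4 u u |> fun _ => (ad2 u (sb i) p1 p4 u u).2.2), e1.2, e4.2, dsb, dsb]; ring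
    have hs' : ∀ i, R4 R u (sb i) u (fun i => r1 i + r4 i) = r1 i + 4 * r4 i := by
      intro i
      rw [(ad2 u (sb i) r1 r4 u u).2.2, f1.2, f4.2, dsb, dsb]; ring
    have e5 : R4 R u (fun i => p1 i + p4 i) u (fun i => r1 i + r4 i) = dot (fun i => p1 i + p4 i) r1
        + 4 * dot (fun i => p1 i + p4 i) r4 := by
      rw [(ad2 u _ r1 r4 u u).2.2, f1.2, f4.2]; ring
    simp only [hs, hs', e5]
    have o1 := orth p1 r4 e1 f4
    have o2 := orth r1 p4 f1 e4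
    have o3 : (∑ i, (p1 i + 4 * p4 i) * (r1 i + 4 * r4 i)) = dot p1 r1 + 4 * dot p1 r4 + 4 * dot r1 p4 + 16 * dot p4 r4 := by
      unfold dot
      simp only [Finset.mul_sum, ← Finset.sum_add_distrib]
      exact Finset.sum_congr rfl fun i _ => by ring
    rw [o3, dadd', dadd', dadd, dadd', dadd', o1, dcomm p4 r1, o2]
    ring
  refine ⟨c1, fun p q _ _ h h' => A4 p q h h', c3, c4, ?_, ?_⟩
  · intro p p' hp hp' h4 h4'
    have ex : ∀ q, perp4 e q → Eg R (e 0) 4 q → ∀ x, R4 R u x u q = 5 / 2 * dot x q + 3 / 4 * R4 R (e 0) q (e 2) x := by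
      intro q hq hq4 x
      rw [exu, hq4.2, (O2 q hq hq4).2.1.2]
      linear_combination 1 / 2 * m4 q hq hq4 x
    have k := key p p' hp hp'
    simp only [ex p hp h4, ex p' hp' h4'] at k
    have i1 : R4 R (e 0) p' (e 2) p = 0 := A4 p' p h4' h4
    have i2 : R4 R (e 0) p (e 2) p' = 0 := A4 p p' h4 h4'
    have dsb : ∀ (w : Fin n → ℝ) i, dot (sb i) w = w i := by
      intro w i; unfold dot sb; simp
    have s1 : (∑ i, (5 / 2 * dot (sb i) p + 3 / 4 * R4 R (e 0) p (e 2) (sb i)) *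
        (5 / 2 * dot (sb i) p' + 3 / 4 * R4 R (e 0) p' (e 2) (sb i))) = 25 / 4 * dot p p'
        + 15 / 8 * R4 R (e 0) p' (e 2) p + 15 / 8 * R4 R (e 0) p (e 2) p'
        + 9 / 16 * ∑ i, R4 R (e 0) p (e 2) (sb i) * R4 R (e 0) p' (e 2) (sb i) := by
      rw [(texp R (e 0) p' (e 2) p).2.2.2, (texp R (e 0) p (e 2) p').2.2.2]
      unfold dot
      simp only [Finset.mul_sum, ← Finset.sum_add_distrib]
      have dsb' : ∀ (w : Fin n → ℝ) (i : Fin n), (∑ j, (sb i : Fin n → ℝ) j * w j) = w i := dsb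
      exact Finset.sum_congr rfl fun i _ => by rw [← Finset.mul_sum, ← Finset.mul_sum, dsb', dsb']; ring
    rw [s1, i1, i2] at k
    linarith
  · intro p p' hp hp' h4 h4'
    have ex : ∀ q, perp4 e q → Eg R (e 2) 4 q → ∀ x, R4 R u x u q = 5 / 2 * dot x q + 3 / 4 * R4 R (e 0) x (e 2) q := by
      intro q hq hq4 x
      rw [exu, hq4.2, (P2 q (pf q hq) hq4).2.1.2]
      linear_combination 1 / 2 * m4' q hq hq4 x
    have k := key p p' hp hp'
    simp only [ex p hp h4, ex p' hp' h4'] at k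
    have i1 : R4 R (e 0) p' (e 2) p = 0 := c3 p' p hp' hp h4' h4
    have i2 : R4 R (e 0) p (e 2) p' = 0 := c3 p p' hp hp' h4 h4'
    have dsb : ∀ (w : Fin n → ℝ) i, dot (sb i) w = w i := by
      intro w i; unfold dot sb; simp
    have s1 : (∑ i, (5 / 2 * dot (sb i) p + 3 / 4 * R4 R (e 0) (sb i) (e 2) p) *
        (5 / 2 * dot (sb i) p' + 3 / 4 * R4 R (e 0) (sb i) (e 2) p')) = 25 / 4 * dot p p'
        + 15 / 8 * R4 R (e 0) p (e 2) p' + 15 / 8 * R4 R (e 0) p' (e 2) p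
        + 9 / 16 * ∑ i, R4 R (e 0) (sb i) (e 2) p * R4 R (e 0) (sb i) (e 2) p' := by
      rw [(texp R (e 0) p (e 2) p').2.1, (texp R (e 0) p' (e 2) p).2.1]
      unfold dot
      simp only [Finset.mul_sum, ← Finset.sum_add_distrib]
      have dsb' : ∀ (w : Fin n → ℝ) (i : Fin n), (∑ j, (sb i : Fin n → ℝ) j * w j) = w i := dsb
      exact Finset.sum_congr rfl fun i _ => by rw [← Finset.mul_sum, ← Finset.mul_sum, dsb', dsb']; ring
    rw [s1, i1, i2] at k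
    linarith

end Pool.Agent.Helper47.FLG
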