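import Pool.Agent.Helper73.RFn.JSn

/-!
# Project FLG, MYS part 1: solutions of the static heat equation are jointly smooth
-/

set_option autoImplicit false

open Finset Pool.Agent.Helper47.RFn Pool.Agent.Helper73.RFn

namespace Pool.Agent.Helper19.FLG

variable {n : ℕ}

theorem ew_zero (h2 : Goal_C2) : ∀ (w : List (Fin (n + 1))) (x : EE n), Ew w (fun _ => (0 : ℝ)) x = 0 := by
  intro w
  induction w with
  | nil => intro x; rfl
  | cons i w ih =>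
    intro x
    have : Ew w (fun _ : EE n => (0 : ℝ)) = fun _ => 0 := funext ih
    show ed i (Ew w (fun _ : EE n => (0 : ℝ))) x = 0
    rw [this]
    exact (h2 n).1 i 0 x

/-- constant families -/
theorem fam_const (h2 : Goal_C2) (h8 : Goal_C8) (I : Set ℝ) {g : EE n → ℝ} (hg : Sm g) :
    SmFam1 I (fun _ => g) (fun _ _ => 0) :=
  ⟨(h8 n I).2.2.2.2.2.2.2.2.2 g hg, (h8 n I).1 (fun _ => 0) continuousOn_const, fun w x _ t _ => by
    show HasDerivWithinAt (fun _ => Ew w g x) (Ew w (fun _ => (0 : ℝ)) x) I t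
    rw [ew_zero h2]
    exact hasDerivWithinAt_const t I _⟩

section
variable {A θ : MF n} {I : Set ℝ}

theorem sm_Fdc (h1 : Goal_C1) (hF : Frm A θ) (a : Fin (n + 1)) {f : EE n → ℝ} (hf : Sm f) : Sm (Fdc A a f) := by
  have := (h1 n).2.2.2.2.2.1 (Fin (n + 1)) univ (fun i x => A x a i * ed i f x)
    (fun i _ => (h1 n).2.2.2.1 _ _ (hF.smA a i) ((h1 n).2.2.2.2.2.2.2.2.1 f i hf))
  exact this

theorem sm_nfc (h1 : Goal_C1) (hF : Frm A θ) (a : Fin (n + 1)) : Sm (nfc A a) :=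
  (h1 n).2.2.2.2.2.1 (Fin (n + 1)) univ (fun i x => A x a i * nn i x)
    (fun i _ => (h1 n).2.2.2.1 _ _ (hF.smA a i) ((h1 n).2.2.2.2.2.2.2.2.2.2.2 i))

theorem sm_Cc (h1 : Goal_C1) (hF : Frm A θ) (a b c : Fin (n + 1)) : Sm (Cc A θ a b c) := by
  obtain ⟨k1, k2, k3, k4, -, k6, -, -, k9, -, -, -⟩ := h1 n
  refine k2 _ _ (k6 _ univ (fun j x => (Fdc A a (fun y => A y b j) x - Fdc A b (fun y => A y a j) x) * θ x j c)
    fun j _ => k4 _ _ (k3 _ _ (sm_Fdc h1 hF a (hF.smA b j)) (sm_Fdc h1 hF b (hF.smA a j))) (hF.smt j c)) ?_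
  exact k3 _ _ (k4 _ _ (sm_nfc h1 hF a) (k1 _)) (k4 _ _ (sm_nfc h1 hF b) (k1 _))

theorem sm_Gamc (h1 : Goal_C1) (hF : Frm A θ) (a b c : Fin (n + 1)) : Sm (Gamc A θ a b c) := by
  obtain ⟨k1, k2, k3, k4, -, k6, -, -, k9, -, -, -⟩ := h1 n
  exact k4 _ _ (k1 _) (k2 _ _ (k3 _ _ (sm_Cc h1 hF a b c) (sm_Cc h1 hF b c a)) (sm_Cc h1 hF c a b))

theorem fam_Fdc (h2 : Goal_C2) (h8 : Goal_C8) (h9 : Goal_C9) (hF : Frm A θ) (a : Fin (n + 1))
    {f f' : ℝ → EE n → ℝ} (hf : SmFam1 I f f') :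
    SmFam1 I (fun t => Fdc A a (f t)) (fun t => Fdc A a (f' t)) := by
  obtain ⟨-, -, -, c4, -, c6, -, c8⟩ := h9 n I
  have := c8 (Fin (n + 1)) univ (fun i t x => A x a i * ed i (f t) x)
    (fun i t x => 0 * ed i (f t) x + A x a i * ed i (f' t) x)
    (fun i _ => c4 _ _ _ _ (fam_const h2 h8 I (hF.smA a i)) (c6 _ _ i hf))
  have e : (fun (t : ℝ) (x : EE n) => ∑ i, (0 * ed i (f t) x + A x a i * ed i (f' t) x)) = fun t => Fdc A a (f' t) := by
    funext t x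
    simp only [zero_mul, zero_add]
    rfl
  rw [e] at this
  exact this

theorem fam_Lapf (h1 : Goal_C1) (h2 : Goal_C2) (h8 : Goal_C8) (h9 : Goal_C9) (hF : Frm A θ)
    {f f' : ℝ → EE n → ℝ} (hf : SmFam1 I f f') :
    SmFam1 I (fun t => Lapf A θ (f t)) (fun t => Lapf A θ (f' t)) := by
  obtain ⟨-, -, c3, c4, -, -, -, c8⟩ := h9 n I
  have s1 := c8 (Fin (n + 1)) univ (fun a t => Fdc A a (Fdc A a (f t))) (fun a t => Fdc A a (Fdc A a (f' t)))
    (fun a _ => fam_Fdc h2 h8 h9 hF a (fam_Fdc h2 h8 h9 hF a hf))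
  have s2 := c8 (Fin (n + 1)) univ (fun a t x => ∑ b, Gamc A θ a a b x * Fdc A b (f t) x)
    (fun a t x => ∑ b, (0 * Fdc A b (f t) x + Gamc A θ a a b x * Fdc A b (f' t) x))
    (fun a _ => c8 (Fin (n + 1)) univ (fun b t x => Gamc A θ a a b x * Fdc A b (f t) x)
      (fun b t x => 0 * Fdc A b (f t) x + Gamc A θ a a b x * Fdc A b (f' t) x)
      (fun b _ => c4 _ _ _ _ (fam_const h2 h8 I (sm_Gamc h1 hF a a b)) (fam_Fdc h2 h8 h9 hF b hf)))
  have s3 := c3 _ _ _ _ s1 s2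
  have e : (fun (t : ℝ) (x : EE n) => (∑ a, Fdc A a (Fdc A a (f' t)) x)
      - ∑ a, ∑ b, (0 * Fdc A b (f t) x + Gamc A θ a a b x * Fdc A b (f' t) x)) = fun t => Lapf A θ (f' t) := by
    funext t x
    simp only [zero_mul, zero_add]
    rfl
  rw [e] at s3
  exact s3

theorem shj (h1 : Goal_C1) (h2 : Goal_C2) (h8 : Goal_C8) (h9 : Goal_C9) (hJ : JsmStmt) {T : ℝ} (hF : Frm A θ)
    {u : ℝ → EE n → ℝ} (hu : HeatOn (Set.Ico 0 T) (fun _ => A) (fun _ => θ) u) :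
    Pool.Agent.Helper73.RFn.JS T u := by
  refine hJ n T (Set.Ico 0 T) u Set.Ioo_subset_Ico_self ?_
  refine ⟨fun k t => (Lapf A θ)^[k] (u t), rfl, fun k => ?_⟩
  induction k with
  | zero => exact hu
  | succ k ih =>
    have h := fam_Lapf h1 h2 h8 h9 hF ih
    simp only [← Function.iterate_succ_apply'] at h
    exact h

end

end Pool.Agent.Helper19.FLG
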