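import Pool.Agent.Helper62.RFn.FLB
import Pool.Agent.Helper67.RFn.NRO
import Pool.Agent.Helper19.FLG.SHJ

/-!
# Project FLG, MYS part 2: the frame bundle of one metric (time independent frame)
-/

set_option autoImplicit false

open Finset Pool.Agent.Helper47.RFn Pool.Agent.Helper47.RFn.FLBp Pool.Agent.Helper67.RFn.Nro

namespace Pool.Agent.Helper19.FLG

variable {n : ℕ} {T : ℝ}

/-- frame bundle data of a time independent frame -/
noncomputable def sFB (M : Mod n T) (A θ : MF n) : FB n T :=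
  M.toBA.toFB (M.emM (fun _ => A)) (M.emM (fun _ => θ)) (fun _ _ => 0)

theorem js_const {f : EE n → ℝ} (hf : Sm f) : Pool.Agent.Helper47.RFn.JS T (fun _ => f) :=
  ⟨hf.cd.comp contDiffOn_fst fun _ hp => hp.1, fun _ _ _ => hf.hom⟩

theorem mjA {A θ : MF n} (hF : Frm A θ) : MJ T (fun _ => A) := fun i j => js_const (hF.smA i j)

theorem mjt {A θ : MF n} (hF : Frm A θ) : MJ T (fun _ => θ) := fun i j => js_const (hF.smt i j)

theorem sfb (hEM : Goal_EM) (hLNK : Goal_LNK) (hE0 : Goal_E0) (hYOM : Goal_YOM) (hVIH : Goal_VIH)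
    (hT : 0 < T) (M : Mod n T) (hM : M.Ax) {A θ : MF n} (hF : Frm A θ) :
    (sFB M A θ).Full ∧ (∀ i j, (sFB M A θ).S i j = 0) ∧
    (∀ (z : M.Z) (t : TI T) (a b : Ix n), (sFB M A θ).ev z t ((sFB M A θ).Ric a b)
      = ∑ i, ∑ j, M.fr z a i * M.fr z b j * Rcf A θ i j (M.pt z)) ∧
    (∀ (z : M.Z) (t : TI T) (a : Ix n), (sFB M A θ).ev z t ((sFB M A θ).nu a) = ∑ b, M.fr z a b * nfc A b (M.pt z)) ∧
    (∀ v w : ℝ → EE n → ℝ, Pool.Agent.Helper47.RFn.JS T v → Pool.Agent.Helper47.RFn.JS T w → (sFB M A θ).VI (M.em v) ∧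
      ∀ (z : M.Z) (t : TI T), (sFB M A θ).ev z t ((sFB M A θ).gg (M.em v) (M.em w)) = ggf A (v t) (w t) (M.pt z) ∧
        (sFB M A θ).ev z t ((sFB M A θ).Lap (M.em v)) = Lapf A θ (v t) (M.pt z)) ∧
    (∀ v v' : ℝ → EE n → ℝ, Pool.Agent.Helper47.RFn.JS T v →
      (∀ t x, 0 < t → t < T → x ≠ 0 → HasDerivAt (fun r => v r x) (v' t x) t) →
      ∀ (z : M.Z) (t : TI T), (sFB M A θ).ev z t ((sFB M A θ).D (M.em v)) = v' t (M.pt z)) ∧
    (∀ v : ℝ → EE n → ℝ, Pool.Agent.Helper47.RFn.JS T v → ∀ (z : M.Z) (t : TI T),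
      (sFB M A θ).ev z t (M.em v) = v t (M.pt z)) := by
  obtain ⟨em1, em2, em3, em4, em5, em6⟩ := hEM n T hT M hM
  have hA : MJ T (fun _ => A) := mjA hF
  have ht : MJ T (fun _ => θ) := mjt hF
  obtain ⟨l1, l2, l3, l4, l5, l6⟩ := hLNK n T hT M hM (fun _ => A) (fun _ => θ) hA ht
  have hP := hM.ax
  obtain ⟨e1, e2, e3, -⟩ := hE0 n T M.toBA hP
  have hev : ∀ v : ℝ → EE n → ℝ, Pool.Agent.Helper47.RFn.JS T v → ∀ z (t : TI T), M.ev z t (M.em v) = v t (M.pt z) :=
    fun v hv => (em1 v hv).2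
  have hinv : ∀ x, A x * θ x = 1 := fun x => hF.inv x
  have hinv' : ∀ x, θ x * A x = 1 := fun x => mul_eq_one_comm.1 (hinv x)
  have hAev : ∀ a i z (t : TI T), M.ev z t (M.emM (fun _ => A) a i) = A (M.pt z) a i := fun a i z t => hev _ (hA a i) z t
  have htev : ∀ i a z (t : TI T), M.ev z t (M.emM (fun _ => θ) i a) = θ (M.pt z) i a := fun i a z t => hev _ (ht i a) z t
  have hRcev : ∀ a b z (t : TI T), M.ev z t (FR.Rc M.e M.n0 (M.emM (fun _ => A)) (M.emM (fun _ => θ)) a b)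
      = Rcf A θ a b (M.pt z) := by
    intro a b z t
    rw [(l5 a b).2]
    exact hev _ (l5 a b).1 z t
  have hnfev : ∀ a z (t : TI T), M.ev z t (FR.nf M.n0 (M.emM (fun _ => A)) a) = nfc A a (M.pt z) := by
    intro a z t
    rw [(l1 a).2]
    exact hev _ (l1 a).1 z t
  have hAt : ∀ a b, ∑ i, M.emM (fun _ => A) a i * M.emM (fun _ => θ) i b = if a = b then 1 else 0 := by
    intro a b
    apply hP.ext
    intro z t
    have h1 := ev_ite M z t a b
    refine Eq.trans ?_ h1.symm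
    rw [map_sum, ← hinv (M.pt z), Matrix.mul_apply]
    refine sum_congr rfl fun i _ => ?_
    rw [map_mul, hAev, htev]
  have htA : ∀ i j, ∑ a, M.emM (fun _ => θ) i a * M.emM (fun _ => A) a j = if i = j then 1 else 0 := by
    intro a b
    apply hP.ext
    intro z t
    have h1 := ev_ite M z t a b
    refine Eq.trans ?_ h1.symm
    rw [map_sum, ← hinv' (M.pt z), Matrix.mul_apply]
    refine sum_congr rfl fun i _ => ?_
    rw [map_mul, hAev, htev]
  have hnA : ∀ a, ∑ i, M.emM (fun _ => A) a i * M.n0 i = ∑ i, M.emM (fun _ => θ) i a * M.n0 i := by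
    intro a
    apply hP.ext
    intro z t
    have h1 := hF.nA (M.pt z) a
    have hn : ∀ i, nn i (M.pt z) = M.pt z i := by
      intro i
      unfold nn
      rw [hM.ptn z, div_one]
    rw [map_sum, map_sum]
    refine Eq.trans (Eq.trans ?_ h1) ?_
    · refine sum_congr rfl fun i _ => ?_
      rw [map_mul, hAev, hM.nev, hn]
    · refine sum_congr rfl fun i _ => ?_
      rw [map_mul, htev, hM.nev, hn]
  have hDA : ∀ a i, M.Dt (M.emM (fun _ => A) a i) = ∑ b, (fun _ _ => (0 : M.B)) a b * M.emM (fun _ => A) b i := by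
    intro a i
    apply hP.ext
    intro z t
    have h1 := em4 (fun _ x => A x a i) (fun _ _ => 0) (hA a i)
      (by
        intro t x _ _ _
        exact hasDerivAt_const t _) z t
    refine Eq.trans h1 ?_
    simp
  have hFH : M.FH (M.emM (fun _ => A)) (M.emM (fun _ => θ)) (fun _ _ => 0) :=
    { XA := fun a i => (em1 _ (hA a i)).1
      Xt := fun i a => (em1 _ (ht i a)).1
      XS := by
        intro a b
        exact ⟨fun k l => map_zero _, fun k l => map_zero _⟩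
      At := hAt
      tA := htA
      nA := hnA
      DA := hDA
      Ssy := fun _ _ => rfl
      nS := fun a => by simp }
  obtain ⟨hFull, -, -, hRic, -, -⟩ := hYOM n T M.toBA hP _ _ _ hFH
  -- gradient and Laplacian of functions
  have hFd : ∀ (v : ℝ → EE n → ℝ) (_ : Pool.Agent.Helper47.RFn.JS T v) a z (t : TI T),
      M.ev z t (FR.Fd M.e (M.emM (fun _ => A)) a (M.em v)) = Fdc A a (v t) (M.pt z) := by
    intro v hv a z t
    rw [(l6 a v hv).2]
    exact hev _ (l6 a v hv).1 z t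
  have hgg : ∀ (v w : ℝ → EE n → ℝ), Pool.Agent.Helper47.RFn.JS T v → Pool.Agent.Helper47.RFn.JS T w →
      ∀ z (t : TI T), M.ev z t ((sFB M A θ).gg (M.em v) (M.em w)) = ggf A (v t) (w t) (M.pt z) := by
    intro v w hv hw z t
    have h1 := (hVIH n T M.toBA hP _ _ _ hFH (M.em v) (M.em w) (em1 v hv).1 (em1 w hw).1).2.2.1
    have h2 : M.ev z t ((sFB M A θ).gg (M.em v) (M.em w)) = M.ev z t (∑ b, FR.Fd M.e (M.emM (fun _ => A)) b (M.em v)
        * FR.Fd M.e (M.emM (fun _ => A)) b (M.em w)) := congrArg (M.ev z t) h1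
    rw [h2]
    refine Eq.trans (map_sum (M.ev z t) _ _) ?_
    unfold ggf
    refine sum_congr rfl fun b _ => ?_
    rw [map_mul, hFd v hv, hFd w hw]
  have hlap : ∀ (v : ℝ → EE n → ℝ), Pool.Agent.Helper47.RFn.JS T v → ∀ z (t : TI T),
      M.ev z t ((sFB M A θ).Lap (M.em v)) = Lapf A θ (v t) (M.pt z) := by
    intro v hv z t
    have h1 := (hVIH n T M.toBA hP _ _ _ hFH (M.em v) (M.em v) (em1 v hv).1 (em1 v hv).1).2.2.2
    have h2 := congrArg (M.ev z t) h1
    refine Eq.trans h2 ?_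
    refine Eq.trans (map_sub (M.ev z t) _ _) ?_
    unfold Lapf
    refine congrArg₂ (fun a b : ℝ => a - b) ?_ ?_
    · refine Eq.trans (map_sum (M.ev z t) _ _) ?_
      refine sum_congr rfl fun b _ => ?_
      rw [(l6 b v hv).2]
      exact hFd _ (l6 b v hv).1 b z t
    · refine Eq.trans (map_sum (M.ev z t) _ _) ?_
      refine sum_congr rfl fun b _ => ?_
      rw [map_sum]
      refine sum_congr rfl fun c _ => ?_
      rw [map_mul, hFd v hv, (l3 b b c).2]
      exact congrArg (fun r : ℝ => r * Fdc A c (v t) (M.pt z)) (hev _ (l3 b b c).1 z t)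
  refine ⟨hFull, fun i j => ?_, ?_, ?_, ?_, ?_, hev⟩
  · show (∑ c, ∑ d, M.u i c * M.u j d * (0 : M.B)) = 0
    simp
  · intro z t a b
    refine Eq.trans (congrArg (M.ev z t) (hRic a b)) ?_
    simp only [map_sum, map_mul, hM.uev, hRcev]
  · intro z t a
    show M.ev z t (∑ b, M.u a b * FR.nf M.n0 (M.emM (fun _ => A)) b) = _
    simp only [map_sum, map_mul, hM.uev, hnfev]
  · intro v w hv hw
    exact ⟨(em1 v hv).1.2, fun z t => ⟨hgg v w hv hw z t, hlap v hv z t⟩⟩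
  · intro v v' hv hd z t
    exact em4 v v' hv hd z t

/-- behaviour at time zero -/
theorem s0 (hEM : Goal_EM) (hLNK : Goal_LNK) (hE0 : Goal_E0) (hYOM : Goal_YOM) (hVIH : Goal_VIH)
    (hC8 : Goal_C8) (hT : 0 < T) (M : Mod n T) (hM : M.Ax) {A θ : MF n} (hF : Frm A θ)
    (v : ℝ → EE n → ℝ) (hv : Pool.Agent.Helper47.RFn.JS T v) (hs : SmFam (Set.Ico 0 T) v) :
    (sFB M A θ).Bd0 ((sFB M A θ).Lap (M.em v)) ∧
    (∀ c : ℝ, (∀ x, x ≠ 0 → ggf A (v 0) (v 0) x ≤ c) →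
      (sFB M A θ).Ini (-(sFB M A θ).gg (M.em v) (M.em v)) (-c)) := by
  have hA : MJ T (fun _ => A) := mjA hF
  have ht : MJ T (fun _ => θ) := mjt hF
  have c : Ctx M (fun _ => A) (fun _ => θ) :=
    ⟨hT, hM, fun a i => em_mem (hA a i) ((hC8 n _).2.2.2.2.2.2.2.2.2 _ (hF.smA a i)),
      fun i a => em_mem (ht i a) ((hC8 n _).2.2.2.2.2.2.2.2.2 _ (hF.smt i a))⟩
  have hk : M.em v ∈ KS M := em_mem hv hs
  refine ⟨c.bd hEM (c.Lap hEM hC8 hk), fun k hc => ?_⟩
  obtain ⟨-, c2, -, c4, -, c6, -, c8, -, c10⟩ := hC8 n (Set.Ico 0 T)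
  have h1 : SmFam (Set.Ico 0 T) (fun t => ggf A (v t) (v t)) := by
    have hd : ∀ a, SmFam (Set.Ico 0 T) (fun t => Fdc A a (v t)) := fun a =>
      c8 (Fin (n + 1)) univ (fun i t x => A x a i * ed i (v t) x) (fun i _ => c4 _ _ (c10 _ (hF.smA a i)) (c6 _ i hs))
    exact c8 (Fin (n + 1)) univ (fun a t x => Fdc A a (v t) x * Fdc A a (v t) x) (fun a _ => c4 _ _ (hd a) (hd a))
  obtain ⟨-, -, -, -, hvw, -, -⟩ := sfb hEM hLNK hE0 hYOM hVIH hT M hM hF
  refine exH_ini (f := -((sFB M A θ).gg (M.em v) (M.em v) : M.B)) (M := M)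
    (h := fun p => -ggf A (v p.2) (v p.2) (M.pt p.1)) hT ⟨(fam_ct hM h1).neg, fun z t => ?_⟩
    fun z => neg_le_neg (hc _ (pt_ne hM z))
  exact (map_neg (M.ev z t) _).trans (congrArg Neg.neg (((hvw v v hv hv).2 z t).1))

end Pool.Agent.Helper19.FLG
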