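import Pool.Agent.Helper47.RFn.GoalsB

/-!
# Project FLG, MYS part 3: the static heat equation, abstract version
-/

set_option autoImplicit false

open Finset Pool.Agent.Helper47.RFn

namespace Pool.Agent.Helper19.FLG

variable {n : ℕ} {T : ℝ}

theorem hop_sum (F : FB n T) {ι : Type} (s : Finset ι) (x : ι → F.B) : F.Hop (∑ a ∈ s, x a) = ∑ a ∈ s, F.Hop (x a) := by
  unfold FB.Hop FB.Lap
  simp only [map_sum, Finset.sum_sub_distrib]
  rw [Finset.sum_comm]

theorem hop_gg (hPRD : Goal_PRD) (hBOC : Goal_BOC) (F : FB n T) (hF : F.Full) (hS : ∀ i j, F.S i j = 0) {u : F.B}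
    (hu : F.VI u) (hD : F.D u = F.Lap u) :
    F.Hop (F.gg u u) = -((2 : ℝ) • F.h2 u) - (2 : ℝ) • ∑ a, ∑ b, F.Ric a b * F.H a u * F.H b u := by
  obtain ⟨b1, -, -, b4⟩ := hBOC n T F hF u hu
  obtain ⟨d1, -⟩ := b4 hS
  have h1 : ∀ a, F.Hop (F.H a u) = -∑ b, F.Ric a b * F.H b u := by
    intro a
    unfold FB.Hop
    rw [d1 a, b1 a, hD]
    ring
  have hprd := (hPRD n T F).1
  have h2 : ∀ a, F.Hop (F.H a u * F.H a u) = -((2 : ℝ) • ∑ b, F.Ric a b * F.H a u * F.H b u)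
      - (2 : ℝ) • ∑ b, F.H b (F.H a u) ^ 2 := by
    intro a
    rw [(hprd _ _).1, h1]
    have e1 : F.gg (F.H a u) (F.H a u) = ∑ b, F.H b (F.H a u) ^ 2 := by
      unfold FB.gg
      exact Finset.sum_congr rfl fun b _ => by ring
    have e2 : ∑ b, F.Ric a b * F.H a u * F.H b u = F.H a u * ∑ b, F.Ric a b * F.H b u := by
      rw [Finset.mul_sum]
      exact Finset.sum_congr rfl fun b _ => by ring
    rw [e1, e2, two_smul, two_smul]
    ring
  have h3 : F.Hop (F.gg u u) = ∑ a, F.Hop (F.H a u * F.H a u) := by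
    unfold FB.gg
    exact hop_sum F univ _
  rw [h3]
  simp only [h2]
  rw [Finset.sum_sub_distrib, Finset.sum_neg_distrib, ← Finset.smul_sum, ← Finset.smul_sum]
  have e3 : (∑ a, ∑ b, F.H b (F.H a u) ^ 2) = F.h2 u := by
    unfold FB.h2
    rw [Finset.sum_comm]
  rw [e3]
  ring

theorem hop_tt (F : FB n T) (hB : F.Base) : F.Hop F.tt = 1 := by
  unfold FB.Hop FB.Lap
  rw [hB.tt_D]
  have : ∀ a, F.H a (F.H a F.tt) = 0 := fun a => by rw [hB.tt_H, map_zero]
  simp only [this, sum_const_zero, sub_zero]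

theorem gg_tt (F : FB n T) (hB : F.Base) (g : F.B) : F.gg F.tt g = 0 := by
  unfold FB.gg
  simp only [hB.tt_H, zero_mul, sum_const_zero]

/-- the Ricci curvature is at least `k` at `(z,t)` -/
def RicAt (F : FB n T) (k : ℝ) (z : F.Z) (t : TI T) : Prop :=
  ∀ w : Ix n → ℝ, ∑ a, F.ev z t (F.nu a) * w a = 0 →
    k * ∑ a, w a ^ 2 ≤ ∑ a, ∑ b, F.ev z t (F.Ric a b) * w a * w b

theorem ric_grad {F : FB n T} (hF : F.Full) {k : ℝ} {z : F.Z} {t : TI T} (h : RicAt F k z t) (u : F.B) :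
    k * F.ev z t (F.gg u u) ≤ F.ev z t (∑ a, ∑ b, F.Ric a b * F.H a u * F.H b u) := by
  have h1 := h (fun a => F.ev z t (F.H a u)) (by
    have := congrArg (F.ev z t) (hF.nuH u)
    rw [map_sum, map_zero] at this
    simpa only [map_mul] using this)
  have e1 : F.ev z t (F.gg u u) = ∑ a, F.ev z t (F.H a u) ^ 2 := by
    unfold FB.gg
    rw [map_sum]
    exact Finset.sum_congr rfl fun a _ => by rw [map_mul]; ring
  rw [e1]
  simpa only [map_sum, map_mul] using h1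

/-- global estimates for the static heat equation with nonnegative Ricci curvature -/
theorem sha (hn : 3 ≤ n) (hMP1 : Goal_MP1) (hBOC : Goal_BOC) (hBIA : Goal_BIA) (hPRD : Goal_PRD)
    (F : FB n T) (hF : F.Full) (hS : ∀ i j, F.S i j = 0) (hRic : ∀ z t, RicAt F 0 z t)
    (u : F.B) (hu : F.VI u) (hD : F.D u = F.Lap u) (hini : F.Ini (-F.gg u u) (-1)) (hbd : F.Bd0 (F.Lap u)) :
    ∀ z (t : TI T), F.ev z t (F.gg u u) ≤ 1 ∧ t * F.ev z t (F.Lap u) ^ 2 ≤ ((n : ℝ) + 1) / 2 := by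
  obtain ⟨C1, hC1, hbia⟩ := hBIA n hn
  have hn0 : (0 : ℝ) ≤ n := Nat.cast_nonneg n
  set Bc : ℝ := ((n : ℝ) + 1) / 2 with hBc
  have hBc0 : 0 < Bc := by positivity
  have hB := hF.toBase
  have hE1 := hop_gg hPRD hBOC F hF hS hu hD
  have hHv : F.Hop (F.Lap u) = 0 := by
    unfold FB.Hop
    rw [((hBOC n T F hF u hu).2.2.2 hS).2, hD, sub_self]
  have hprd := (hPRD n T F).1
  have hR0 : ∀ z (t : TI T), 0 ≤ F.ev z t (∑ a, ∑ b, F.Ric a b * F.H a u * F.H b u) := by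
    intro z t
    have := ric_grad hF (hRic z t) u
    linarith
  have hB1 : ∀ z (t : TI T), F.ev z t (F.Hop (F.gg u u)) ≤ -(2 * F.ev z t (F.h2 u)) := by
    intro z t
    rw [hE1, map_sub, map_neg, map_smul, map_smul, smul_eq_mul, smul_eq_mul]
    have := hR0 z t
    linarith
  have hone : F.Hop (1 : F.B) = 0 := by
    have h := ((hprd 0 0).2.2.2.1 1).2
    rwa [map_one] at h
  have hi : ∀ z (t : TI T), F.ev z t (F.gg u u) ≤ 1 := by
    intro z t
    have h := hMP1 n T F hB (1 - F.gg u u) 0 t 0 1 le_rfl t.2.2 le_rfl one_pos ?_ ?_ z t t.2.1 le_rfl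
    · rw [map_sub, map_one] at h
      linarith
    · intro ε hε
      obtain ⟨t0, ht0, _, h0⟩ := hini ε hε
      refine ⟨t0, ht0, fun z t _ ht => ?_⟩
      have h := h0 z t (by linarith)
      rw [map_neg] at h
      rw [map_sub, map_one]
      linarith
    · intro z t _ _ _ _ _
      rw [zero_mul, (hprd 1 (F.gg u u)).2.2.1, hone, zero_sub, map_neg]
      have h := ((hbia T F hF z t).2.2.2.2.2.2.2 u).2.1
      have h' := hB1 z t
      linarith
  set v := F.Lap u with hv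
  have htt := hop_tt F hB
  have hgt := gg_tt F hB
  have hF0 : F.Hop (F.tt * v ^ 2 + Bc • F.gg u u) =
      F.tt * (-((2 : ℝ) • F.gg v v)) + v ^ 2 + Bc • F.Hop (F.gg u u) := by
    rw [(hprd _ _).2.1, (hprd _ _).1, ((hprd (F.gg u u) 0).2.2.2.1 Bc).1, htt, hgt,
      (hprd v 0).2.2.2.2, hHv, smul_zero, sub_zero, mul_one, mul_zero, smul_zero, zero_sub]
  have hpt : ∀ z (t : TI T), F.ev z t (F.Hop (F.tt * v ^ 2 + Bc • F.gg u u)) ≤ 0 := by
    intro z t
    obtain ⟨b1, b2, b3, b4, b5, b6, b7, b8⟩ := hbia T F hF z t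
    obtain ⟨g1, g2, g3, g4⟩ := b8 u
    have g5 := (b8 v).1
    have ht : 0 < (t : ℝ) := t.2.1
    rw [hF0]
    simp only [map_add, map_mul, map_smul, map_neg, map_pow, hB.tt_ev, smul_eq_mul]
    have e4 : 0 ≤ (t : ℝ) * F.ev z t (F.gg v v) := mul_nonneg ht.le g5
    have e5 : F.ev z t v ^ 2 ≤ ((n : ℝ) + 1) * F.ev z t (F.h2 u) := g4
    have e6 := mul_le_mul_of_nonneg_left (hB1 z t) hBc0.le
    have e7 : Bc * (-(2 * F.ev z t (F.h2 u))) = -(((n : ℝ) + 1) * F.ev z t (F.h2 u)) := by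
      rw [hBc]; ring
    rw [e7] at e6
    linarith
  intro z t
  refine ⟨hi z t, ?_⟩
  have h := hMP1 n T F hB (algebraMap ℝ F.B Bc - (F.tt * v ^ 2 + Bc • F.gg u u)) 0 t 0 1 le_rfl
    t.2.2 le_rfl one_pos ?_ ?_ z t t.2.1 le_rfl
  · simp only [map_add, map_sub, map_mul, map_smul, map_pow, hB.tt_ev, smul_eq_mul,
      AlgHom.commutes] at h
    have g1 := ((hbia T F hF z t).2.2.2.2.2.2.2 u).1
    have g2 : 0 ≤ Bc * F.ev z t (F.gg u u) := mul_nonneg hBc0.le g1
    have e : (algebraMap ℝ ℝ) Bc = Bc := rfl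
    rw [e] at h
    linarith
  · intro ε hε
    obtain ⟨Cb, t0, ht0, _, h0⟩ := hbd
    refine ⟨min t0 (ε / (Cb ^ 2 + 1)), lt_min ht0 (by positivity), fun z t _ ht => ?_⟩
    have ht' : (t : ℝ) < min t0 (ε / (Cb ^ 2 + 1)) := by linarith
    have h1 := h0 z t (ht'.trans_le (min_le_left _ _))
    have h2 : (t : ℝ) < ε / (Cb ^ 2 + 1) := ht'.trans_le (min_le_right _ _)
    rw [lt_div_iff₀ (by positivity)] at h2
    have h3 : F.ev z t v ^ 2 ≤ Cb ^ 2 := by
      rw [← sq_abs (F.ev z t v)]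
      exact pow_le_pow_left₀ (abs_nonneg _) h1 2
    have h4 := hi z t
    have ht0' : 0 < (t : ℝ) := t.2.1
    simp only [map_add, map_sub, map_mul, map_smul, map_pow, hB.tt_ev, smul_eq_mul,
      AlgHom.commutes]
    have e : (algebraMap ℝ ℝ) Bc = Bc := rfl
    rw [e]
    have h5 : Bc * F.ev z t (F.gg u u) ≤ Bc * 1 := mul_le_mul_of_nonneg_left h4 hBc0.le
    have h6 : (t : ℝ) * F.ev z t v ^ 2 ≤ t * Cb ^ 2 := mul_le_mul_of_nonneg_left h3 ht0'.le
    nlinarith
  · intro z t _ _ _ _ _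
    have hc : F.Hop (algebraMap ℝ F.B Bc) = 0 := ((hprd 0 0).2.2.2.1 Bc).2
    rw [zero_mul, (hprd _ _).2.2.1, hc, zero_sub, map_neg]
    have := hpt z t
    linarith

/-- exponential of an element -/
theorem exists_exp (F : FB n T) (hB : F.Base) (f : F.B) : ∃ g : F.B, (∀ z t, F.ev z t g = Real.exp (F.ev z t f)) ∧
    (∀ a, F.H a g = g * F.H a f) ∧ F.D g = g * F.D f ∧ F.Hop g = g * (F.Hop f - F.gg f f) := by
  obtain ⟨g, hg⟩ := hB.comp Real.exp Set.univ isOpen_univ Real.contDiff_exp.contDiffOn f (fun _ _ => Set.mem_univ _)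
  have hc := hB.chain Real.exp Set.univ isOpen_univ Real.contDiff_exp.contDiffOn f g (fun _ _ => Set.mem_univ _) hg
  have h1 : ∀ a, F.H a g = g * F.H a f := by
    intro a
    refine hB.ext _ _ fun z t => ?_
    rw [(hc z t).1 a, map_mul, hg, Real.deriv_exp]
  have h2 : F.D g = g * F.D f := by
    refine hB.ext _ _ fun z t => ?_
    rw [(hc z t).2.2, map_mul, hg, Real.deriv_exp]
  refine ⟨g, hg, h1, h2, ?_⟩
  unfold FB.Hop FB.Lap FB.gg
  rw [h2]
  have h3 : ∀ a, F.H a (F.H a g) = g * (F.H a f * F.H a f) + g * F.H a (F.H a f) := by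
    intro a
    rw [h1, Derivation.leibniz, h1, smul_eq_mul, smul_eq_mul]
    ring
  simp only [h3, Finset.sum_add_distrib, ← Finset.mul_sum]
  ring

/-- local estimate of the gradient -/
theorem shb (hn : 3 ≤ n) (hMP1 : Goal_MP1) (hBOC : Goal_BOC) (hBIA : Goal_BIA) (hPRD : Goal_PRD)
    (F : FB n T) (hF : F.Full) (hS : ∀ i j, F.S i j = 0) (hRic : ∀ z t, RicAt F 0 z t)
    (u : F.B) (hu : F.VI u) (hD : F.D u = F.Lap u) (hini : F.Ini (-F.gg u u) (-1)) (hbd : F.Bd0 (F.Lap u))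
    (w : F.B) (hDw : F.D w = 0) (k b c R1 : ℝ) (hk : 0 ≤ k) (hb : 0 ≤ b)
    (hw1 : ∀ z t, F.ev z t (F.gg w w) ≤ 1) (hw2 : ∀ z t, |F.ev z t (F.Lap w)| ≤ c)
    (hloc : ∀ z t, RicAt F k z t ∨ R1 ≤ F.ev z t w) :
    ∀ z (t : TI T), F.ev z t (F.gg u u) ≤ Real.exp (-(2 * k * t)) +
      Real.exp (b * (F.ev z t w - R1) + (b ^ 2 + b * c) * t) := by
  have hB := hF.toBase
  have hprd := (hPRD n T F).1
  obtain ⟨C1, hC1, hbia⟩ := hBIA n hn
  have hE1 := hop_gg hPRD hBOC F hF hS hu hD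
  have hglob := fun z t => (sha hn hMP1 hBOC hBIA hPRD F hF hS hRic u hu hD hini hbd z t).1
  have htt := hop_tt F hB
  -- the two exponentials
  obtain ⟨E, hE, hEH, hED, hEHop⟩ := exists_exp F hB ((-(2 * k) : ℝ) • F.tt)
  obtain ⟨P, hP, hPH, hPD, hPHop⟩ := exists_exp F hB (b • (w - algebraMap ℝ F.B R1) + (b ^ 2 + b * c) • F.tt)
  have hEv : ∀ z (t : TI T), F.ev z t E = Real.exp (-(2 * k * t)) := by
    intro z t
    rw [hE, map_smul, hB.tt_ev, smul_eq_mul]
    congr 1; ring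
  have hPv : ∀ z (t : TI T), F.ev z t P = Real.exp (b * (F.ev z t w - R1) + (b ^ 2 + b * c) * t) := by
    intro z t
    rw [hP, map_add, map_smul, map_smul, map_sub, hB.tt_ev, smul_eq_mul, smul_eq_mul, AlgHom.commutes]
    rfl
  have hEop : ∀ z (t : TI T), F.ev z t (F.Hop E) = -(2 * k) * F.ev z t E := by
    intro z t
    have e1 : F.gg ((-(2 * k) : ℝ) • F.tt) ((-(2 * k) : ℝ) • F.tt) = 0 := by
      unfold FB.gg
      refine Finset.sum_eq_zero fun a _ => ?_
      rw [Derivation.map_smul, hB.tt_H, smul_zero, zero_mul]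
    rw [hEHop, e1, sub_zero, ((hprd F.tt 0).2.2.2.1 _).1, htt, map_mul, map_smul, map_one, smul_eq_mul]
    ring
  have hPop : ∀ z (t : TI T), F.ev z t (F.Hop P) = F.ev z t P *
      ((b ^ 2 + b * c) - b * F.ev z t (F.Lap w) - b ^ 2 * F.ev z t (F.gg w w)) := by
    intro z t
    have e1 : ∀ a, F.H a (b • (w - algebraMap ℝ F.B R1) + (b ^ 2 + b * c) • F.tt) = b • F.H a w := by
      intro a
      rw [map_add, Derivation.map_smul, Derivation.map_smul, map_sub, hB.tt_H, Derivation.map_algebraMap, smul_zero,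
        add_zero, sub_zero]
    have e2 : F.gg (b • (w - algebraMap ℝ F.B R1) + (b ^ 2 + b * c) • F.tt)
        (b • (w - algebraMap ℝ F.B R1) + (b ^ 2 + b * c) • F.tt) = (b ^ 2) • F.gg w w := by
      unfold FB.gg
      rw [Finset.smul_sum]
      refine Finset.sum_congr rfl fun a _ => ?_
      rw [e1, smul_mul_smul_comm, pow_two]
    have e3 : F.Hop (b • (w - algebraMap ℝ F.B R1) + (b ^ 2 + b * c) • F.tt) =
        b • (-F.Lap w) + (b ^ 2 + b * c) • (1 : F.B) := by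
      rw [(hprd _ _).2.1, ((hprd _ 0).2.2.2.1 b).1, ((hprd F.tt 0).2.2.2.1 _).1, htt, (hprd w _).2.2.1,
        ((hprd 0 0).2.2.2.1 R1).2, sub_zero]
      congr 2
      unfold FB.Hop
      rw [hDw, zero_sub]
    rw [hPHop, e2, e3, map_mul, map_sub, map_add, map_smul, map_smul, map_smul, map_neg, map_one, smul_eq_mul,
      smul_eq_mul, smul_eq_mul]
    ring
  intro z t
  have h := hMP1 n T F hB (E + P - F.gg u u) 0 t 0 1 le_rfl t.2.2 le_rfl one_pos ?_ ?_ z t t.2.1 le_rfl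
  · rw [map_sub, map_add, hEv, hPv] at h
    linarith
  · intro ε hε
    obtain ⟨t0, ht0, _, h0⟩ := hini (ε / 2) (by linarith)
    refine ⟨min t0 (ε / (4 * k + 1)), lt_min ht0 (by positivity), fun z t _ ht => ?_⟩
    rw [zero_add] at ht
    have h1 := h0 z t (ht.trans_le (min_le_left _ _))
    have h2 : (t : ℝ) < ε / (4 * k + 1) := ht.trans_le (min_le_right _ _)
    rw [lt_div_iff₀ (by positivity)] at h2
    have ht0' : 0 < (t : ℝ) := t.2.1
    rw [map_neg] at h1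
    rw [map_sub, map_add, hEv, hPv]
    have h3 := Real.add_one_le_exp (-(2 * k * (t : ℝ)))
    have h4 := Real.exp_pos (b * (F.ev z t w - R1) + (b ^ 2 + b * c) * t)
    nlinarith
  · intro z t _ _ _ _ hneg
    rw [zero_mul, (hprd _ _).2.2.1, (hprd _ _).2.1, map_sub, map_add, hEop, hPop, hE1, map_sub, map_neg, map_smul,
      map_smul, smul_eq_mul, smul_eq_mul]
    rw [map_sub, map_add] at hneg
    have ht0' : 0 < (t : ℝ) := t.2.1
    have hPpos : 0 < F.ev z t P := by rw [hPv]; exact Real.exp_pos _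
    have hEpos : 0 < F.ev z t E := by rw [hEv]; exact Real.exp_pos _
    have hc0 : 0 ≤ c := (abs_nonneg _).trans (hw2 z t)
    rcases hloc z t with h1 | h1
    · have e1 := ric_grad hF h1 u
      have e2 := ((hbia T F hF z t).2.2.2.2.2.2.2 u).2.1
      have e3 := (abs_le.1 (hw2 z t)).2
      have e4 : 0 ≤ (b ^ 2 + b * c) - b * F.ev z t (F.Lap w) - b ^ 2 * F.ev z t (F.gg w w) := by
        have s1 : b * F.ev z t (F.Lap w) ≤ b * c := mul_le_mul_of_nonneg_left e3 hb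
        have s2 : b ^ 2 * F.ev z t (F.gg w w) ≤ b ^ 2 * 1 := mul_le_mul_of_nonneg_left (hw1 z t) (by positivity)
        linarith
      have e5 := mul_nonneg hPpos.le e4
      have e6 : 0 ≤ k * (F.ev z t (F.gg u u) - F.ev z t E) := by
        refine mul_nonneg hk ?_
        linarith
      linarith
    · exfalso
      have e1 := hglob z t
      have e2 : 1 ≤ F.ev z t P := by
        rw [hPv]
        refine Real.one_le_exp ?_
        have s1 : 0 ≤ b * (F.ev z t w - R1) := mul_nonneg hb (by linarith)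
        have s2 : 0 ≤ (b ^ 2 + b * c) * (t : ℝ) := by positivity
        linarith
      linarith

end Pool.Agent.Helper19.FLG
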