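import Pool.Agent.Helper19.FLG.SFB
import Pool.Agent.Helper19.FLG.SHA
import Pool.Agent.Helper73.RFn.GoalsH

/-!
# Project FLG, MYS part 4: the static heat equation, function level
-/

set_option autoImplicit false

open Finset Pool.Agent.Helper47.RFn

namespace Pool.Agent.Helper19.FLG

variable {n : ℕ} {T : ℝ}

/-- the Ricci curvature of the metric of the frame is at least `k` at `x` -/
def RicF (A θ : MF n) (k : ℝ) (x : EE n) : Prop :=
  ∀ w : Fin (n + 1) → ℝ, ∑ a, nfc A a x * w a = 0 →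
    k * ∑ a, w a ^ 2 ≤ ∑ a, ∑ b, Rcf A θ a b x * w a * w b

theorem rot_q (u : Ix n → Ix n → ℝ) (R : Ix n → Ix n → ℝ) (w : Ix n → ℝ) :
    ∑ i, ∑ j, R i j * (∑ a, u a i * w a) * (∑ b, u b j * w b) =
      ∑ a, ∑ b, (∑ i, ∑ j, u a i * u b j * R i j) * w a * w b := by
  have h1 : ∀ i j, R i j * (∑ a, u a i * w a) * (∑ b, u b j * w b) =
      ∑ a, ∑ b, u a i * u b j * R i j * w a * w b := by
    intro i j
    rw [mul_assoc, Finset.sum_mul_sum, Finset.mul_sum]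
    refine Finset.sum_congr rfl fun a _ => ?_
    rw [Finset.mul_sum]
    exact Finset.sum_congr rfl fun b _ => by ring
  simp only [h1]
  have h2 : ∀ i, (∑ j, ∑ a, ∑ b, u a i * u b j * R i j * w a * w b) =
      ∑ a, ∑ b, ∑ j, u a i * u b j * R i j * w a * w b := by
    intro i
    rw [Finset.sum_comm]
    exact Finset.sum_congr rfl fun a _ => Finset.sum_comm
  simp only [h2]
  rw [Finset.sum_comm]
  refine Finset.sum_congr rfl fun a _ => ?_
  rw [Finset.sum_comm]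
  refine Finset.sum_congr rfl fun b _ => ?_
  simp only [Finset.sum_mul]

theorem ricAt_of (M : Mod n T) (hM : M.Ax) {A θ : MF n} {z : M.Z} {t : TI T} {k : ℝ}
    (hRic : ∀ a b : Ix n, (sFB M A θ).ev z t ((sFB M A θ).Ric a b)
      = ∑ i, ∑ j, M.fr z a i * M.fr z b j * Rcf A θ i j (M.pt z))
    (hnu : ∀ a : Ix n, (sFB M A θ).ev z t ((sFB M A θ).nu a) = ∑ b, M.fr z a b * nfc A b (M.pt z))
    (h : RicF A θ k (M.pt z)) : RicAt (sFB M A θ) k z t := by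
  intro w hw
  simp only [hnu] at hw
  have h1 := h (fun i => ∑ a, M.fr z a i * w a) (by
    rw [← hw]
    simp only [Finset.mul_sum, Finset.sum_mul]
    rw [Finset.sum_comm]
    exact Finset.sum_congr rfl fun a _ => Finset.sum_congr rfl fun b _ => by ring)
  have h2 : ∑ i, (∑ a, M.fr z a i * w a) ^ 2 = ∑ a, w a ^ 2 := by
    have hO := hM.frO z
    have e1 : ∀ i, (∑ a, M.fr z a i * w a) ^ 2 = ∑ a, ∑ b, (M.fr z a i * M.fr z b i) * (w a * w b) := by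
      intro i
      rw [pow_two, Finset.sum_mul_sum]
      exact Finset.sum_congr rfl fun a _ => Finset.sum_congr rfl fun b _ => by ring
    simp only [e1]
    rw [Finset.sum_comm]
    refine Finset.sum_congr rfl fun a _ => ?_
    rw [Finset.sum_comm]
    simp only [← Finset.sum_mul]
    have e2 : ∀ b, (∑ i, M.fr z a i * M.fr z b i) = if a = b then 1 else 0 := fun b => hO a b
    simp only [e2]
    simp [pow_two]
  rw [h2] at h1
  refine h1.trans (le_of_eq ?_)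
  rw [rot_q]
  simp only [hRic]

theorem one_mem' (n : ℕ) : (one : Ix n → Ix n → ℝ) ∈ OO n := by
  intro a b
  simp [one]

theorem shc_core (hMOD : Goal_MOD) (hEM : Goal_EM) (hLNK : Goal_LNK) (hE0 : Goal_E0) (hYOM : Goal_YOM)
    (hVIH : Goal_VIH) (hC1 : Goal_C1) (hC2 : Goal_C2) (hC8 : Goal_C8) (hC9 : Goal_C9)
    (hJ : Pool.Agent.Helper73.RFn.JsmStmt) (hFHM : Pool.Agent.Helper73.RFn.FhmStmt)
    (hMP1 : Goal_MP1) (hBOC : Goal_BOC) (hBIA : Goal_BIA) (hPRD : Goal_PRD) (hn : 3 ≤ n) (hT : 0 < T)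
    (A θ : MF n) (hF : Frm A θ) (hRic : ∀ x, x ≠ 0 → RicF A θ 0 x) (u : ℝ → EE n → ℝ)
    (hu : HeatOn (Set.Ico 0 T) (fun _ => A) (fun _ => θ) u) (h0 : ∀ x, x ≠ 0 → ggf A (u 0) (u 0) x ≤ 1) :
    (∀ t, 0 < t → t < T → ∀ x, x ≠ 0 → ggf A (u t) (u t) x ≤ 1 ∧ t * Lapf A θ (u t) x ^ 2 ≤ ((n : ℝ) + 1) / 2) ∧
    ∀ (w : EE n → ℝ) (k b c R1 : ℝ), Sm w → 0 ≤ k → 0 ≤ b → (∀ x, x ≠ 0 → ggf A w w x ≤ 1) →
      (∀ x, x ≠ 0 → |Lapf A θ w x| ≤ c) → (∀ x, x ≠ 0 → RicF A θ k x ∨ R1 ≤ w x) →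
      ∀ t, 0 < t → t < T → ∀ x, x ≠ 0 → ggf A (u t) (u t) x ≤ Real.exp (-(2 * k * t)) +
        Real.exp (b * (w x - R1) + (b ^ 2 + b * c) * t) := by
  obtain ⟨M, hM⟩ := hMOD n T hT
  have ju' := shj hC1 hC2 hC8 hC9 hJ hF hu
  have ju : Pool.Agent.Helper47.RFn.JS T u := ⟨ju'.cd, ju'.hom⟩
  obtain ⟨hfull, hS, hRc, hnu, hl, hdt, hev0⟩ := sfb hEM hLNK hE0 hYOM hVIH hT M hM hF
  obtain ⟨hBd, hIni⟩ := s0 hEM hLNK hE0 hYOM hVIH hC8 hT M hM hF u ju hu.fam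
  obtain ⟨hVI, hev⟩ := hl u u ju ju
  have hpt : ∀ z, M.pt z ≠ 0 := by
    intro z hz
    have := hM.ptn z
    rw [hz, norm_zero] at this
    exact zero_ne_one this
  have hR : ∀ z t, RicAt (sFB M A θ) 0 z t := fun z t => ricAt_of M hM (hRc z t) (hnu z t) (hRic _ (hpt z))
  have hDu : (sFB M A θ).D (M.em u) = (sFB M A θ).Lap (M.em u) := by
    refine hfull.ext _ _ fun z t => ?_
    rw [(hev z t).2]
    refine hdt u (fun t => Lapf A θ (u t)) ju ?_ z t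
    intro t x ht1 ht2 hx
    have := hu.der [] x hx t ⟨ht1.le, ht2⟩
    exact this.hasDerivAt (Ico_mem_nhds ht1 ht2)
  have hin := hIni 1 h0
  obtain ⟨-, -, -, -, -, -, -, -, -, hLs, hgs, -⟩ := (hFHM n).1 A θ hF
  -- evaluation at a point
  have hpnt : ∀ x : EE n, x ≠ 0 → ∃ z : M.Z, ∀ f : EE n → ℝ, Hom0 f → f (M.pt z) = f x := by
    intro x hx
    have hn0 : 0 < ‖x‖ := norm_pos_iff.2 hx
    have hy : ‖(‖x‖⁻¹ • x : EE n)‖ = 1 := by
      rw [norm_smul, norm_inv, norm_norm, inv_mul_cancel₀ hn0.ne']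
    obtain ⟨z, hz, -⟩ := hM.surj (‖x‖⁻¹ • x) one hy (one_mem' n)
    exact ⟨z, fun f hf => by rw [hz]; exact hf ‖x‖⁻¹ x (inv_pos.2 hn0)⟩
  refine ⟨?_, ?_⟩
  · have hfin := sha hn hMP1 hBOC hBIA hPRD (sFB M A θ) hfull hS hR (M.em u) hVI hDu hin hBd
    intro t ht1 ht2 x hx
    obtain ⟨z, hz⟩ := hpnt x hx
    have hus : Sm (u t) := hu.fam.sm t ⟨ht1.le, ht2⟩
    have h := hfin z ⟨t, ht1, ht2⟩
    rw [(hev z ⟨t, ht1, ht2⟩).1, (hev z ⟨t, ht1, ht2⟩).2] at h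
    simp only at h
    rw [hz _ (hgs (u t) (u t) hus hus).1.hom, hz _ (hLs (u t) hus).1.hom] at h
    exact h
  · intro w k b c R1 hw hk hb hw1 hw2 hloc
    have jw : Pool.Agent.Helper47.RFn.JS T (fun _ => w) := js_const hw
    obtain ⟨-, hevw⟩ := hl (fun _ => w) (fun _ => w) jw jw
    have hDw : (sFB M A θ).D (M.em (fun _ => w)) = 0 := by
      refine hfull.ext _ _ fun z t => ?_
      rw [map_zero]
      exact hdt (fun _ => w) (fun _ _ => 0) jw (fun t x _ _ _ => hasDerivAt_const t _) z t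
    have hfin := shb hn hMP1 hBOC hBIA hPRD (sFB M A θ) hfull hS hR (M.em u) hVI hDu hin hBd (M.em (fun _ => w)) hDw
      k b c R1 hk hb (fun z t => by rw [(hevw z t).1]; exact hw1 _ (hpt z))
      (fun z t => by rw [(hevw z t).2]; exact hw2 _ (hpt z))
      (fun z t => by
        rcases hloc _ (hpt z) with h | h
        · exact Or.inl (ricAt_of M hM (hRc z t) (hnu z t) h)
        · right
          rw [hev0 _ jw z t]
          exact h)
    intro t ht1 ht2 x hx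
    obtain ⟨z, hz⟩ := hpnt x hx
    have hus : Sm (u t) := hu.fam.sm t ⟨ht1.le, ht2⟩
    have h := hfin z ⟨t, ht1, ht2⟩
    rw [(hev z ⟨t, ht1, ht2⟩).1, hev0 _ jw z ⟨t, ht1, ht2⟩] at h
    simp only at h
    rw [hz _ (hgs (u t) (u t) hus hus).1.hom, hz _ hw.hom] at h
    exact h

end Pool.Agent.Helper19.FLG
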