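import Pool.Agent.Helper47.FLG.Fun
import Pool.Agent.Helper38.RFn.FIN

/-!
# Project FLG (MP_c98eff_gt): packet STA, the start

Existence of the maximal flow, `Good` (constants depending on the pinching of the metric), `Blow` and the initial condition `Ini0`.
-/

set_option autoImplicit false

namespace Pool.Agent.Helper47.FLG

open Finset Pool.Agent.Helper47.RFn Pool.Agent.Helper73.RFn Pool.Agent.Helper38.RFn.FIN

theorem p_STA (hPDL : G_PDL) (hPFG : G_PFG) (hRP2 : Goal_RP2) (hLoc : LocExStmt) (hCon : ConStmt)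
    (hMx : ExcStmt ∧ ExdStmt ∧ GluStmt ∧ MaxStmt) (hCho : ChoStmt) (hPin : PinStmt) (hFhm : FhmStmt)
    (hcur : ∀ (n : ℕ) (A θ : MF n), Frm A θ → ∀ x, x ≠ 0 →
      Hor (fun a => nfc A a x) (fun a b c d => Rf A θ a b c d x))
    (hlam : ∀ (n : ℕ) (δ : ℝ) (A θ : MF n), 4 ≤ n → 1 / 4 < δ → δ ≤ 1 → Frm A θ → ∀ x, x ≠ 0 →
      PinF δ A θ x → 0 < lamf A θ x) : StaStmt := by
  obtain ⟨hExc, hExd, hGlu, hMax⟩ := hMx
  intro n hn G hG hpin0
  obtain ⟨δ0, hδ0, hpin⟩ := hPDL n (by omega) G hG hpin0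
  obtain ⟨δ, hδd⟩ : ∃ δ : ℝ, δ = min δ0 1 := ⟨_, rfl⟩
  have hδ4 : 1 / 4 < δ := by rw [hδd]; exact lt_min hδ0 (by norm_num)
  have hδ1 : δ ≤ 1 := by rw [hδd]; exact min_le_right _ _
  have hδle : δ ≤ δ0 := by rw [hδd]; exact min_le_left _ _
  obtain ⟨C, σ, hC, hσ, hσ1, hGd⟩ := hCon n hn δ hδ4 hδ1
  obtain ⟨A0, θ0, hF0, hgO⟩ := hCho n G hG
  have hgO' : gOf θ0 = G := funext hgO
  obtain ⟨hfh, hfl⟩ := hFhm n
  obtain ⟨-, -, -, hSR, -, hSl, -, -, hSn, -⟩ := hfh A0 θ0 hF0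
  have hK : ∀ a b c d x, x ≠ 0 → Kf A0 θ0 a b c d x = -Kf A0 θ0 a b d c x := by
    intro a b c d x hx
    have h1 := (hcur n A0 θ0 hF0 x hx).1.a34 a b c d
    simp only [Rf] at h1
    linarith
  have hPF : ∀ x, x ≠ 0 → PinF δ A0 θ0 x := by
    intro x hx
    obtain ⟨h1, h2⟩ := unit_of hx
    have h3 : PinF δ A0 θ0 (‖x‖⁻¹ • x) := by
      apply hPin n A0 θ0 hF0 hK δ _ h2
      rw [hgO']
      exact pinchedAt_mono hδle (hpin _ h2)
    refine PinF_congr (fun a => ?_) (fun a b c d => ?_) h3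
    · exact ((hSn a).hom _ _ h1).symm
    · exact ((hSR a b c d).hom _ _ h1).symm
  have hlp0 : ∀ x, x ≠ 0 → 0 < lamf A0 θ0 x := fun x hx => hlam n δ A0 θ0 hn hδ4 hδ1 hF0 x hx (hPF x hx)
  obtain ⟨l0, hl0, hl0'⟩ := exists_min hSl hlp0
  have hGoodAll : ∀ (T : ℝ) (A θ : ℝ → MF n), 0 < T → FFlow (Set.Ico 0 T) A θ →
      (∀ x, x ≠ 0 → A 0 x = A0 x ∧ θ 0 x = θ0 x) → Good T l0 C σ A θ := by
    intro T A θ hT hf hin
    have hA : ∀ x, x ≠ 0 → A 0 x = A0 x := fun x hx => (hin x hx).1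
    have ht : ∀ x, x ≠ 0 → θ 0 x = θ0 x := fun x hx => (hin x hx).2
    refine hGd T l0 A θ hT hl0 hf fun x hx => ⟨?_, ?_⟩
    · rw [lamf_congr hA ht hx]
      exact hl0' x hx
    · exact PinF_congr (fun a => nfc_congr hA a hx) (fun a b c d => Rf_congr hA ht a b c d hx)
        (hPF x hx)
  have hTb : ∀ (T : ℝ) (A θ : ℝ → MF n), 0 < T → FFlow (Set.Ico 0 T) A θ →
      (∀ x, x ≠ 0 → A 0 x = A0 x ∧ θ 0 x = θ0 x) → T ≤ 1 / (2 * l0) := by
    intro T A θ hT hf hin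
    by_contra hlt
    push Not at hlt
    have hG := hGoodAll T A θ hT hf hin
    have hb : 0 < 1 / (2 * l0) := by positivity
    obtain ⟨t1, ht1⟩ : ∃ t1 : ℝ, t1 = (T - 1 / (2 * l0)) / 2 := ⟨_, rfl⟩
    have h1 : 0 < t1 := by rw [ht1]; linarith
    have h2 : t1 < T := by rw [ht1]; linarith
    have h3 := (hG.s2 t1 l0 h1 h2 hl0 (fun x hx => (hG.p1 t1 h1.le h2 x hx).1)).2
    have h4 : 1 / (2 * l0) < T - t1 := by rw [ht1]; linarith
    have h5 : 0 < T - t1 := by linarith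
    rw [le_div_iff₀ (by positivity)] at h3
    rw [div_lt_iff₀ (by positivity)] at h4
    nlinarith
  obtain ⟨T, A, θ, hT, hf, hin, hunb⟩ := hMax hLoc hExc hExd hGlu n A0 θ0 (1 / (2 * l0)) (by omega)
    hF0 hTb
  have hG0 := hGoodAll T A θ hT hf hin
  obtain ⟨hfrm, -, -, hfaml, -⟩ := hfl (Set.Ico 0 T) A θ hf
  have hBl : Blow T A θ := by
    intro K t2 ht2
    obtain ⟨B, hB⟩ := fam_bdd hfaml (t2 := max t2 0) (max_lt ht2 hT)
    obtain ⟨t, x, h0, h1, hx, a, b, c, d, hK'⟩ := hunb (C * max B K)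
    have h2 : max B K < lamf (A t) (θ t) x := by
      have h3 := (hG0.p1 t h0 h1 x hx).2 a b c d
      have h4 := lt_of_lt_of_le hK' h3
      exact lt_of_mul_lt_mul_left h4 (by linarith)
    have h3 : max t2 0 < t := by
      by_contra h4
      push Not at h4
      have := hB t h0 h4 x hx
      exact absurd (lt_of_le_of_lt (le_max_left B K) h2) (not_lt.2 this)
    exact ⟨t, x, lt_of_le_of_lt (le_max_right _ _) h3, lt_of_le_of_lt (le_max_left _ _) h3, h1, hx,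
      lt_of_le_of_lt (le_max_right B K) h2⟩
  have hA : ∀ x, x ≠ 0 → A 0 x = A0 x := fun x hx => (hin x hx).1
  have ht : ∀ x, x ≠ 0 → θ 0 x = θ0 x := fun x hx => (hin x hx).2
  have hg0 : ∀ x, x ≠ 0 → gOf (θ 0) x = G x := by
    intro x hx
    rw [← hgO']
    simp only [gOf, (hin x hx).2]
  have hini : Ini0 l0 (A 0) (θ 0) := by
    intro x hx
    refine ⟨?_, ?_⟩
    · rw [lamf_congr hA ht hx]
      exact hl0' x hx
    · intro ι hι
      have e1 : (fun a => nfc (A 0) a x) = fun a => nfc A0 a x :=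
        funext fun a => nfc_congr hA a hx
      have e2 : RT (A 0) (θ 0) x = fun a b c d => Rf A0 θ0 a b c d x := by
        funext a b c d
        exact Rf_congr hA ht a b c d hx
      rw [e1] at hι
      rw [e2]
      exact hPFG n δ _ hδ4.le (hRP2 n _ ι _ hι (hcur n A0 θ0 hF0 x hx)).1 (hPF x hx ι hι)
  exact ⟨T, l0, C, σ, A, θ, hT, hl0, hC, hσ, hσ1, hf, hg0, hini, hG0, hBl⟩

end Pool.Agent.Helper47.FLG
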